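import Pool.Agent.Run7.h156.CR.Expl
import Pool.Agent.R562.QH.Fin

/-!
# Reductions to small formulas
-/

set_option autoImplicit false

open Finset Filter

namespace Run7.h156.CR

open Pool.Agent.R562.QH (Clause Sat card_clause few_clauses)

/-- The probability that the answer is `a`: the output bits of the random circuit are evaluated by
the random function `ans`. -/
noncomputable def prob {n : ℕ} {O Z Ω : Type} [Fintype Ω] (μ : Ω → ℝ)
    (C : Ω → WordCircuit (Sym2 (Fin n)) O Z) (ans : Ω → (O → Bool) → Bool)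
    (G : SimpleGraph (Fin n)) (a : Bool) : ℝ :=
  ∑ ω ∈ univ.filter (fun ω => ans ω ((C ω).output (bits G)) = a), μ ω

/-- The random circuits and the functions `ans` tell the graphs with a clique of `k` vertices
(answer `true`) from the graphs without clique of `s` vertices (answer `false`), with error
probability at most `1 / 3`. -/
def Solves {n : ℕ} {O Z Ω : Type} [Fintype Ω] (μ : Ω → ℝ)
    (C : Ω → WordCircuit (Sym2 (Fin n)) O Z) (ans : Ω → (O → Bool) → Bool) (k s : ℕ) : Prop :=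
  (∀ ω, 0 ≤ μ ω) ∧ ∑ ω, μ ω = 1 ∧ ∀ G : SimpleGraph (Fin n),
    (¬ G.CliqueFree k → 2 / 3 ≤ prob μ C ans G true) ∧
    (G.CliqueFree s → 2 / 3 ≤ prob μ C ans G false)

theorem prob_ind {n : ℕ} {O Z Ω : Type} [Fintype Ω] (μ : Ω → ℝ)
    (C : Ω → WordCircuit (Sym2 (Fin n)) O Z) (ans : Ω → (O → Bool) → Bool)
    (G : SimpleGraph (Fin n)) (a : Bool) :
    prob μ C ans G a = ∑ ω, μ ω * ind (ans ω ((C ω).output (bits G)) = a) := by
  classical
  unfold prob ind
  rw [sum_filter]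
  refine sum_congr rfl fun ω _ => ?_
  by_cases h : ans ω ((C ω).output (bits G)) = a
  · rw [if_pos h, if_pos h, mul_one]
  · rw [if_neg h, if_neg h, mul_zero]

theorem prob_add {n : ℕ} {O Z Ω : Type} [Fintype Ω] (μ : Ω → ℝ)
    (C : Ω → WordCircuit (Sym2 (Fin n)) O Z) (ans : Ω → (O → Bool) → Bool)
    (G : SimpleGraph (Fin n)) : prob μ C ans G true + prob μ C ans G false = ∑ ω, μ ω := by
  classical
  rw [prob_ind, prob_ind, ← sum_add_distrib]
  refine sum_congr rfl fun ω _ => ?_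
  unfold ind
  cases ans ω ((C ω).output (bits G)) <;> simp

/-- **Compression.** -/
theorem compression {O Z Ω : Type} [Fintype O] [Fintype Z] [Fintype Ω] {k s n κ θ b r : ℕ}
    (hks : k + 4 ≤ 2 * s) (hsk : s ≤ k) (hn : 2 * k ≤ n) (hr : 1 ≤ r) (hb : 1 ≤ b)
    (μ : Ω → ℝ) (C : Ω → WordCircuit (Sym2 (Fin n)) O Z) (ans : Ω → (O → Bool) → Bool)
    (hκ : ∀ ω, (C ω).FanIn κ) (hθ : ∀ ω, (C ω).TreewidthLE θ)
    (hL : Fintype.card Z ≤ 2 ^ b) (hR : ∑ ω, μ ω * (C ω).reads ≤ r * (n : ℝ) ^ 2)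
    (h : Solves μ C ans k s) :
    n ≤ 2 ^ (5000 * k ^ 6 * r) * ((κ + 1) * (θ + 1 + Fintype.card O) * b) := by
  refine explicit hks hsk hn hr hb μ h.1 h.2.1 C ans hκ hθ hL hR ?_ ?_
  · intro G hG
    rw [← prob_ind]
    have h1 := (h.2.2 G).1 hG
    have h2 := prob_add μ C ans G
    rw [h.2.1] at h2
    linarith
  · intro G hG
    rw [← prob_ind]
    exact (h.2.2 G).2 hG

open Classical in
/-- There is a randomised truth-table reduction with `Q` questions from the problem of telling the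
graphs with `n` vertices and a clique of `k` vertices from those without clique of `s` vertices to
the satisfiability of formulas in `v` variables with at most `d` literals per clause, computed by
random word circuits of fan-in `κ`, treewidth `θ`, with words of `b` bits and with at most `T` reads
on average: the output bit `(i, c)` of the circuit says whether the clause `c` belongs to the `i`-th
formula, and the answers to the questions whether the formulas are satisfiable are evaluated by an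
arbitrary function `ev ω`. -/
def HasReduction (n k s d Q v κ θ b : ℕ) (T : ℝ) : Prop :=
  ∃ (Ω : Type) (_ : Fintype Ω) (μ : Ω → ℝ) (Z : Type) (_ : Fintype Z)
    (C : Ω → WordCircuit (Sym2 (Fin n)) (Fin Q × Clause v d) Z) (ev : Ω → (Fin Q → Bool) → Bool),
    Fintype.card Z ≤ 2 ^ b ∧ (∀ ω, (C ω).FanIn κ ∧ (C ω).TreewidthLE θ) ∧
    Solves μ C (fun ω y => ev ω fun i => decide (Sat fun c => y (i, c))) k s ∧
    ∑ ω, μ ω * (C ω).reads ≤ T

/-- **Reductions.** -/
theorem reductions {k s : ℕ} (hks : k + 4 ≤ 2 * s) (hsk : s ≤ k) {ε : ℝ} (hε : 0 < ε)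
    (d F G c : ℕ) : ∀ᶠ n : ℕ in atTop, ∀ Q v κ θ b : ℕ, 1 ≤ b →
      v ≤ G * (Nat.log 2 (F * n ^ c) + 1) →
      ((κ + 1) * (θ + 1 + Q) * b : ℝ) ≤ (n : ℝ) ^ (1 - ε) → ∀ T : ℝ,
      HasReduction n k s d Q v κ θ b T →
      ε / (20000 * (k : ℝ) ^ 6) * ((n : ℝ) ^ 2 * Real.logb 2 n) ≤ T := by
  have hk4 : 4 ≤ k := by omega
  have hkR : (0:ℝ) < (k : ℝ) ^ 6 := by
    have : (0:ℝ) < k := by
      have : 0 < k := by omega
      exact_mod_cast this
    positivity
  have hlog : Tendsto (fun n : ℕ => Real.logb 2 n) atTop atTop :=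
    (Real.tendsto_logb_atTop (by norm_num)).comp tendsto_natCast_atTop_atTop
  filter_upwards [few_clauses (ε / 4) (by positivity) d F G c 1, eventually_ge_atTop (2 * k),
    hlog.eventually_ge_atTop (10000 * (k : ℝ) ^ 6 / ε)] with n h1 h2 h3
  rintro Q v κ θ b hb hv hsmall T ⟨Ω, _, μ, Z, _, C, ev, hZ, hC, hS, hT⟩
  have hn0 : 0 < n := by omega
  have hnR : (0:ℝ) < n := by exact_mod_cast hn0
  obtain ⟨E, hE⟩ : ∃ E, E = ∑ ω, μ ω * ((C ω).reads : ℝ) := ⟨_, rfl⟩
  have hE0 : 0 ≤ E := by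
    rw [hE]
    exact sum_nonneg fun ω _ => mul_nonneg (hS.1 ω) (Nat.cast_nonneg _)
  rw [← hE] at hT
  refine le_trans ?_ hT
  obtain ⟨r, hr⟩ : ∃ r, r = max 1 ⌈E / (n : ℝ) ^ 2⌉₊ := ⟨_, rfl⟩
  have hr1 : 1 ≤ r := by rw [hr]; exact le_max_left _ _
  have hn2 : (0:ℝ) < (n : ℝ) ^ 2 := by positivity
  have hr2 : E ≤ r * (n : ℝ) ^ 2 := by
    rw [← div_le_iff₀ hn2]
    refine (Nat.le_ceil _).trans ?_
    rw [hr]
    exact_mod_cast le_max_right _ _
  have hr3 : (r : ℝ) ≤ E / (n : ℝ) ^ 2 + 1 := by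
    rw [hr, Nat.cast_max]
    refine max_le ?_ (Nat.ceil_lt_add_one (by positivity)).le
    have : 0 ≤ E / (n : ℝ) ^ 2 := by positivity
    push_cast
    linarith
  have h4 := compression hks hsk h2 hr1 hb μ C _ (fun ω => (hC ω).1) (fun ω => (hC ω).2) hZ
    (by rw [← hE]; exact hr2) hS
  have hcard : Fintype.card (Fin Q × Clause v d) = Q * (2 * v + 1) ^ d := by
    rw [Fintype.card_prod, Fintype.card_fin, card_clause]
  rw [hcard] at h4
  have h5 : (κ + 1) * (θ + 1 + Q * (2 * v + 1) ^ d) * b ≤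
      ((κ + 1) * (θ + 1 + Q) * b) * (2 * v + 1) ^ d := by
    have h6 : 1 ≤ (2 * v + 1) ^ d := Nat.one_le_pow _ _ (by omega)
    have h7 : θ + 1 + Q * (2 * v + 1) ^ d ≤ (θ + 1 + Q) * (2 * v + 1) ^ d := by
      have : θ + 1 ≤ (θ + 1) * (2 * v + 1) ^ d := Nat.le_mul_of_pos_right _ h6
      rw [add_mul]
      omega
    calc _ ≤ (κ + 1) * ((θ + 1 + Q) * (2 * v + 1) ^ d) * b := by gcongr
      _ = _ := by ring
  have h6 : (n : ℝ) ≤ 2 ^ (5000 * k ^ 6 * r) * (((κ + 1) * (θ + 1 + Q) * b) * (2 * v + 1) ^ d) := by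
    exact_mod_cast h4.trans (Nat.mul_le_mul_left _ h5)
  have h7 := h1 v hv
  rw [one_mul] at h7
  have h8 : (n : ℝ) ≤ 2 ^ (5000 * k ^ 6 * r) * ((n : ℝ) ^ (1 - ε) * (n : ℝ) ^ (ε / 4)) := by
    refine h6.trans (mul_le_mul_of_nonneg_left ?_ (by positivity))
    exact mul_le_mul hsmall h7 (by positivity) (by positivity)
  rw [← Real.rpow_add hnR] at h8
  have h9 : (n : ℝ) ^ (3 * ε / 4) ≤ 2 ^ (5000 * k ^ 6 * r) := by
    have e1 : (n : ℝ) = (n : ℝ) ^ (3 * ε / 4) * (n : ℝ) ^ (1 - ε + ε / 4) := by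
      rw [← Real.rpow_add hnR, show 3 * ε / 4 + (1 - ε + ε / 4) = 1 by ring, Real.rpow_one]
    have e2 : (0:ℝ) < (n : ℝ) ^ (1 - ε + ε / 4) := by positivity
    have e3 : (n : ℝ) ^ (3 * ε / 4) * (n : ℝ) ^ (1 - ε + ε / 4) ≤
        2 ^ (5000 * k ^ 6 * r) * (n : ℝ) ^ (1 - ε + ε / 4) := by
      rw [← e1]
      exact h8
    exact le_of_mul_le_mul_right e3 e2
  have h10 : 3 * ε / 4 * Real.logb 2 n ≤ 5000 * (k : ℝ) ^ 6 * r := by
    have e1 := Real.logb_le_logb_of_le (b := 2) (by norm_num) (by positivity) h9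
    rw [Real.logb_rpow_eq_mul_logb_of_pos hnR, ← Real.rpow_natCast 2 (5000 * k ^ 6 * r),
      Real.logb_rpow (by norm_num) (by norm_num)] at e1
    push_cast at e1
    exact e1
  rw [div_le_iff₀ hε] at h3
  have h11 : 3 * ε / 4 * Real.logb 2 n ≤ 5000 * (k : ℝ) ^ 6 * (E / (n : ℝ) ^ 2 + 1) :=
    h10.trans (mul_le_mul_of_nonneg_left hr3 (by positivity))
  have h12 : ε / 4 * Real.logb 2 n ≤ 5000 * (k : ℝ) ^ 6 * (E / (n : ℝ) ^ 2) := by
    nlinarith
  have h13 : ε / (20000 * (k : ℝ) ^ 6) * Real.logb 2 n ≤ E / (n : ℝ) ^ 2 := by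
    rw [div_mul_eq_mul_div, div_le_iff₀ (by positivity)]
    linarith
  rw [le_div_iff₀ hn2] at h13
  refine le_trans (le_of_eq ?_) h13
  ring

end Run7.h156.CR
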