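import Pool.Agent.Y631.NcA

/-!
# Word circuits with several outputs: few reads and small treewidth
-/

set_option autoImplicit false

open Finset

namespace Run7.h156.CR

/-- A word circuit: the variables (numbered by `ι`) are bits, the gates have values in `Z` (words).
The gate `g` computes a function `fn g` of the variables `vsrc g a` and of the earlier gates
`gsrc g a`; `val x g` is its value for the input `x`. The output bit number `o` is a function
`dec o` of the value of the gate `src o`. -/
structure WordCircuit (ι O Z : Type) where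
  /-- the number of gates -/
  size : ℕ
  /-- the number of wires from variables to the gate -/
  vars : Fin size → ℕ
  /-- the number of wires from gates to the gate -/
  gates : Fin size → ℕ
  /-- the variables read by the gate -/
  vsrc : (g : Fin size) → Fin (vars g) → ι
  /-- the gates read by the gate -/
  gsrc : (g : Fin size) → Fin (gates g) → Fin size
  /-- the function computed by the gate -/
  fn : (g : Fin size) → (Fin (vars g) → Bool) → (Fin (gates g) → Z) → Z
  /-- the values of the gates -/
  val : (ι → Bool) → Fin size → Z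
  /-- the gates of the outputs -/
  src : O → Fin size
  /-- the output bits -/
  dec : O → Z → Bool
  acyclic : ∀ g a, gsrc g a < g
  spec : ∀ x g, val x g = fn g (fun a => x (vsrc g a)) (fun a => val x (gsrc g a))

namespace WordCircuit

variable {ι O Z : Type} (C : WordCircuit ι O Z)

/-- The output bits. -/
def output (x : ι → Bool) (o : O) : Bool := C.dec o (C.val x (C.src o))

/-- The number of the wires from variables to gates. -/
def reads : ℕ := ∑ g, C.vars g

/-- Each gate has at most `κ` wires. -/
def FanIn (κ : ℕ) : Prop := ∀ g, C.vars g + C.gates g ≤ κ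

/-- There is a wire from the gate `h` to the gate `g`. -/
def Joined (h g : Fin C.size) : Prop := ∃ a, C.gsrc g a = h

/-- The graph of the gates (the variables are deleted) has a tree decomposition of width at most
`t`. The tree is rooted at the node `0` and given by the parent function `par`, where `par i < i`;
the nodes whose bags contain a given gate form a nonempty subtree, that is, exactly one of them is
the root or has a parent whose bag does not contain the gate. -/
def TreewidthLE (t : ℕ) : Prop :=
  ∃ (T : ℕ) (par : Fin (T + 1) → Fin (T + 1)) (bag : Fin (T + 1) → Finset (Fin C.size)),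
    (∀ i, 0 < i → par i < i) ∧ (∀ i, (bag i).card ≤ t + 1) ∧
    (∀ v, ∃! i, v ∈ bag i ∧ (i = 0 ∨ v ∉ bag (par i))) ∧
    (∀ h g, C.Joined h g → ∃ i, h ∈ bag i ∧ g ∈ bag i)

/-- The graph of the gates as a nondeterministic circuit without variables. -/
def skel (out : Fin C.size) : Pool.Agent.Y631.Nc.NCirc Empty where
  size := C.size
  arity := C.gates
  src := fun g a => Sum.inr (C.gsrc g a)
  rel := fun _ _ _ => True
  out := out
  acyclic := by
    intro g a h hh
    rw [← Sum.inr.inj hh]
    exact C.acyclic g a

theorem joined_skel (out : Fin C.size) (h g : Fin C.size) : (C.skel out).Joined h g ↔ C.Joined h g := by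
  constructor
  · rintro ⟨a, ha⟩
    exact ⟨a, Sum.inr.inj ha⟩
  · rintro ⟨a, ha⟩
    exact ⟨a, congrArg Sum.inr ha⟩

theorem exists_parts {t : ℕ} (h : C.TreewidthLE t) (w : ℕ) :
    ∃ (s : ℕ) (B : Finset (Fin C.size)) (part : Fin C.size → ℕ),
      w * s ≤ 8 * C.reads + w ∧ B.card ≤ s * (2 * (t + 1)) ∧
      (∀ h g, C.Joined h g → h ∉ B → g ∉ B → part h = part g) ∧ (∀ g, g ∉ B → part g < s) ∧
      ∀ c, ∑ g ∈ univ.filter (fun g => g ∉ B ∧ part g = c), C.vars g ≤ w := by
  rcases Nat.eq_zero_or_pos C.size with h0 | h0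
  · have he : IsEmpty (Fin C.size) := by rw [h0]; infer_instance
    exact ⟨0, ∅, fun _ => 0, by simp, by simp, fun h => he.elim h, fun g => he.elim g,
      fun c => by
        rw [Finset.sum_eq_zero (fun g => he.elim g)]
        exact Nat.zero_le _⟩
  · obtain ⟨out⟩ : Nonempty (Fin C.size) := ⟨⟨0, h0⟩⟩
    obtain ⟨T, par, bag, h1, h2, h3, h4⟩ := h
    obtain ⟨s, B, part, h5, h6, h7, h8, h9⟩ := (C.skel out).exists_parts t
      ⟨T, par, bag, h1, h2, h3, fun a b hab => h4 a b ((C.joined_skel out a b).1 hab)⟩ C.vars w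
    exact ⟨s, B, part, h5, h6, fun a b hab => h7 a b ((C.joined_skel out a b).2 hab), h8, h9⟩

/-- The gate `g` reads the variable `i`. -/
def Reads (g : Fin C.size) (i : ι) : Prop := ∃ a, C.vsrc g a = i

open Classical in
/-- The parts in which the variable is read. -/
noncomputable def parts (B : Finset (Fin C.size)) (part : Fin C.size → ℕ) (s : ℕ) (i : ι) :
    Finset (Fin s) :=
  univ.filter fun j => ∃ g, g ∉ B ∧ part g = j.1 ∧ C.Reads g i

theorem mem_parts (B : Finset (Fin C.size)) (part : Fin C.size → ℕ) (s : ℕ) (i : ι) (j : Fin s) :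
    j ∈ C.parts B part s i ↔ ∃ g, g ∉ B ∧ part g = j.1 ∧ C.Reads g i := by
  classical
  unfold parts
  rw [mem_filter]
  simp

theorem sum_parts (B : Finset (Fin C.size)) (part : Fin C.size → ℕ) (s : ℕ) (Y : Finset ι) :
    ∑ i ∈ Y, (C.parts B part s i).card ≤ C.reads := by
  classical
  have h1 : C.reads = Fintype.card ((g : Fin C.size) × Fin (C.vars g)) := by
    rw [Fintype.card_sigma]
    simp only [Fintype.card_fin]
    rfl
  rw [h1, ← Finset.card_sigma, ← Fintype.card_coe]
  have hmem : ∀ p : {p // p ∈ Y.sigma fun i => C.parts B part s i},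
      ∃ g, g ∉ B ∧ part g = p.1.2.1 ∧ C.Reads g p.1.1 := fun p =>
    (C.mem_parts B part s _ _).1 (Finset.mem_sigma.1 p.2).2
  refine Fintype.card_le_of_injective (fun p => ⟨(hmem p).choose,
    (hmem p).choose_spec.2.2.choose⟩) ?_
  intro p p' h
  have h2 : (hmem p).choose = (hmem p').choose := congrArg Sigma.fst h
  have h3 := (hmem p).choose_spec.2.1
  have h4 := (hmem p').choose_spec.2.1
  have h5 := (hmem p).choose_spec.2.2.choose_spec
  have h6 := (hmem p').choose_spec.2.2.choose_spec
  have h7 : p.1.2 = p'.1.2 := by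
    apply Fin.ext
    rw [← h3, ← h4, h2]
  have h8 : ∀ u u' : (g : Fin C.size) × Fin (C.vars g), u = u' →
      C.vsrc u.1 u.2 = C.vsrc u'.1 u'.2 := by
    rintro u u' rfl
    rfl
  have h9 : p.1.1 = p'.1.1 := by
    rw [← h5, ← h6]
    exact h8 _ _ h
  apply Subtype.ext
  obtain ⟨⟨i, j⟩, hp⟩ := p
  obtain ⟨⟨i', j'⟩, hp'⟩ := p'
  simp only at h7 h9
  subst h7 h9
  rfl

theorem card_readBy [DecidableEq ι] (S : Finset (Fin C.size)) (Y : Finset ι) (Q : ι → Prop)
    [DecidablePred Q] (hQ : ∀ i ∈ Y, Q i → ∃ g ∈ S, C.Reads g i) :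
    (Y.filter Q).card ≤ ∑ g ∈ S, C.vars g := by
  classical
  have h1 : Y.filter Q ⊆ S.biUnion fun g => (univ : Finset (Fin (C.vars g))).image (C.vsrc g) := by
    intro i hi
    rw [mem_filter] at hi
    obtain ⟨g, hg, a, ha⟩ := hQ i hi.1 hi.2
    rw [mem_biUnion]
    exact ⟨g, hg, mem_image.2 ⟨a, mem_univ _, ha⟩⟩
  refine (card_le_card h1).trans (card_biUnion_le.trans (Finset.sum_le_sum fun g _ => ?_))
  exact card_image_le.trans (by rw [card_univ, Fintype.card_fin])

/-- **Division into parts.** -/
theorem divide [Fintype O] [Fintype Z] [DecidableEq ι] {κ θ L : ℕ} (hκ : C.FanIn κ)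
    (hθ : C.TreewidthLE θ) (hL : Fintype.card Z ≤ L) (hL1 : 1 ≤ L) (w : ℕ) :
    ∃ (s : ℕ) (T : ι → Finset (Fin s)) (D : Finset ι) (Cl : Type) (_ : Fintype Cl)
      (cl : (ι → Bool) → Cl), w * s ≤ 8 * C.reads + w ∧
      D.card ≤ κ * (s * (2 * (θ + 1)) + Fintype.card O) ∧
      Fintype.card Cl ≤ L ^ ((κ + 1) * (s * (2 * (θ + 1)) + Fintype.card O)) ∧
      (∀ Y : Finset ι, ∑ i ∈ Y, (T i).card ≤ C.reads) ∧
      (∀ (Y : Finset ι) (j : Fin s), (Y.filter fun i => j ∈ T i).card ≤ w) ∧
      (∀ x x', cl x = cl x' → C.output x = C.output x') ∧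
      ∀ (J : Finset (Fin s)) (A E : Set ι) (x x' y : ι → Bool),
        (∀ i ∈ A, i ∉ D ∧ T i ⊆ J) → (∀ i ∈ E, i ∉ D ∧ Disjoint (T i) J) →
        (∀ i, i ∉ A → i ∉ E → x i = x' i) → cl x = cl x' →
        (∀ i, i ∈ A → y i = x i) → (∀ i, i ∉ A → y i = x' i) → cl y = cl x := by
  classical
  obtain ⟨s, B, part, h1, h2, h3, h4, h5⟩ := C.exists_parts hθ w
  obtain ⟨B', hB'⟩ : ∃ B', B' = B ∪ univ.image C.src := ⟨_, rfl⟩
  obtain ⟨P, hP⟩ : ∃ P, P = B' ∪ B'.biUnion fun g => univ.image (C.gsrc g) := ⟨_, rfl⟩
  obtain ⟨D, hD⟩ : ∃ D, D = B'.biUnion fun g => univ.image (C.vsrc g) := ⟨_, rfl⟩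
  have hBB' : ∀ g, g ∉ B' → g ∉ B := fun g hg h => hg (by rw [hB']; exact mem_union_left _ h)
  have hcB : B'.card ≤ s * (2 * (θ + 1)) + Fintype.card O := by
    rw [hB']
    refine (card_union_le _ _).trans (Nat.add_le_add h2 (card_image_le.trans ?_))
    rw [card_univ]
  have hmP : ∀ g, g ∈ B' → g ∈ P := fun g hg => by rw [hP]; exact mem_union_left _ hg
  have hmP' : ∀ g a, g ∈ B' → C.gsrc g a ∈ P := fun g a hg => by
    rw [hP]
    exact mem_union_right _ (mem_biUnion.2 ⟨g, hg, mem_image.2 ⟨a, mem_univ _, rfl⟩⟩)
  have hmD : ∀ g i, g ∈ B' → C.Reads g i → i ∈ D := by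
    rintro g i hg ⟨a, rfl⟩
    rw [hD]
    exact mem_biUnion.2 ⟨g, hg, mem_image.2 ⟨a, mem_univ _, rfl⟩⟩
  refine ⟨s, C.parts B' part s, D, {g // g ∈ P} → Z, inferInstance, fun x g => C.val x g.1,
    h1, ?_, ?_, C.sum_parts B' part s, ?_, ?_, ?_⟩
  · rw [hD]
    refine (card_biUnion_le_card_mul _ _ κ fun g _ => ?_).trans ?_
    · refine card_image_le.trans ?_
      rw [card_univ, Fintype.card_fin]
      exact le_trans (Nat.le_add_right _ _) (hκ g)
    · rw [mul_comm]
      exact Nat.mul_le_mul_left _ hcB
  · rw [Fintype.card_fun, Fintype.card_coe]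
    have hPc : P.card ≤ (κ + 1) * (s * (2 * (θ + 1)) + Fintype.card O) := by
      rw [hP]
      refine (card_union_le _ _).trans ?_
      have h6 : (B'.biUnion fun g => univ.image (C.gsrc g)).card ≤ B'.card * κ := by
        refine card_biUnion_le_card_mul _ _ κ fun g _ => ?_
        refine card_image_le.trans ?_
        rw [card_univ, Fintype.card_fin]
        exact le_trans (Nat.le_add_left _ _) (hκ g)
      calc B'.card + (B'.biUnion fun g => univ.image (C.gsrc g)).card
          ≤ B'.card + B'.card * κ := Nat.add_le_add_left h6 _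
        _ = (κ + 1) * B'.card := by ring
        _ ≤ _ := Nat.mul_le_mul_left _ hcB
    exact (Nat.pow_le_pow_left hL _).trans (Nat.pow_le_pow_right hL1 hPc)
  · intro Y j
    refine (C.card_readBy (univ.filter fun g => g ∉ B' ∧ part g = j.1) Y _ ?_).trans ?_
    · intro i _ hi
      obtain ⟨g, hg1, hg2, hg3⟩ := (C.mem_parts B' part s i j).1 hi
      exact ⟨g, mem_filter.2 ⟨mem_univ _, hg1, hg2⟩, hg3⟩
    · refine le_trans (sum_le_sum_of_subset ?_) (h5 j.1)
      intro g hg
      rw [mem_filter] at hg ⊢
      exact ⟨hg.1, hBB' g hg.2.1, hg.2.2⟩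
  · intro x x' h
    funext o
    unfold output
    have h6 : C.src o ∈ P := hmP _ (by
      rw [hB']
      exact mem_union_right _ (mem_image.2 ⟨o, mem_univ _, rfl⟩))
    have h7 := congrFun h ⟨C.src o, h6⟩
    simp only at h7
    rw [h7]
  · intro J A E x x' y hA hE hxx hcl hyA hyA'
    have hval : ∀ g ∈ P, C.val x g = C.val x' g := fun g hg => congrFun hcl ⟨g, hg⟩
    obtain ⟨u, hu⟩ : ∃ u : Fin C.size → Z, ∀ g, u g = if g ∈ P then C.val x g else
      if ∃ h : part g < s, (⟨part g, h⟩ : Fin s) ∈ J then C.val x g else C.val x' g :=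
      ⟨_, fun _ => rfl⟩
    have key : ∀ n : ℕ, ∀ g : Fin C.size, g.1 = n → C.val y g = u g := by
      intro n
      induction n using Nat.strong_induction_on with
      | _ n ih =>
        intro g hg
        have ih' : ∀ a, C.val y (C.gsrc g a) = u (C.gsrc g a) := fun a =>
          ih _ (by have := C.acyclic g a; rw [Fin.lt_def] at this; omega) _ rfl
        rw [C.spec y g]
        by_cases hgB : g ∈ B'
        · have e1 : u g = C.val x g := by rw [hu, if_pos (hmP g hgB)]
          rw [e1, C.spec x g]
          congr 1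
          · funext a
            have h6 := hmD g _ hgB ⟨a, rfl⟩
            have h7 : C.vsrc g a ∉ A := fun h => (hA _ h).1 h6
            have h8 : C.vsrc g a ∉ E := fun h => (hE _ h).1 h6
            rw [hyA' _ h7, hxx _ h7 h8]
          · funext a
            rw [ih', hu, if_pos (hmP' g a hgB)]
        · have hps : part g < s := h4 g (hBB' g hgB)
          have hsame : ∀ a, C.gsrc g a ∉ P → part (C.gsrc g a) = part g := fun a ha =>
            h3 _ g ⟨a, rfl⟩ (fun h => ha (hmP _ (by rw [hB']; exact mem_union_left _ h)))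
              (hBB' g hgB)
          by_cases hJ : (⟨part g, hps⟩ : Fin s) ∈ J
          · have e1 : u g = C.val x g := by
              rw [hu]
              split_ifs with h6 h7
              · rfl
              · rfl
              · exact absurd ⟨hps, hJ⟩ h7
            rw [e1, C.spec x g]
            congr 1
            · funext a
              have h6 : (⟨part g, hps⟩ : Fin s) ∈ C.parts B' part s (C.vsrc g a) :=
                (C.mem_parts B' part s _ _).2 ⟨g, hgB, rfl, ⟨a, rfl⟩⟩
              have h8 : C.vsrc g a ∉ E := fun h =>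
                Finset.disjoint_left.1 (hE _ h).2 h6 hJ
              by_cases h7 : C.vsrc g a ∈ A
              · exact hyA _ h7
              · rw [hyA' _ h7, hxx _ h7 h8]
            · funext a
              rw [ih', hu]
              split_ifs with h6 h7
              · rfl
              · rfl
              · exact absurd (by
                  obtain ⟨hq⟩ : Nonempty (part (C.gsrc g a) = part g) := ⟨hsame a h6⟩
                  refine ⟨by rw [hq]; exact hps, ?_⟩
                  have : (⟨part (C.gsrc g a), by rw [hq]; exact hps⟩ : Fin s) = ⟨part g, hps⟩ :=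
                    Fin.ext hq
                  rw [this]
                  exact hJ) h7
          · have e1 : u g = C.val x' g := by
              rw [hu]
              split_ifs with h6 h7
              · exact hval g h6
              · exact absurd h7.2 hJ
              · rfl
            rw [e1, C.spec x' g]
            congr 1
            · funext a
              have h6 : (⟨part g, hps⟩ : Fin s) ∈ C.parts B' part s (C.vsrc g a) :=
                (C.mem_parts B' part s _ _).2 ⟨g, hgB, rfl, ⟨a, rfl⟩⟩
              have h7 : C.vsrc g a ∉ A := fun h => hJ ((hA _ h).2 h6)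
              exact hyA' _ h7
            · funext a
              rw [ih', hu]
              split_ifs with h6 h7
              · exact hval _ h6
              · obtain ⟨hq1, hq2⟩ := h7
                exact absurd (by
                  have : (⟨part (C.gsrc g a), hq1⟩ : Fin s) = ⟨part g, hps⟩ :=
                    Fin.ext (hsame a h6)
                  rw [← this]
                  exact hq2) hJ
              · rfl
    funext g
    have h6 := key g.1.1 g.1 rfl
    rw [hu, if_pos g.2] at h6
    exact h6

end WordCircuit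

end Run7.h156.CR
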