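import Pool.Agent.Run7.h156.CR.LevelOne

/-!
# A corruption bound for set disjointness
-/

set_option autoImplicit false

open Finset

namespace Run7.h156.CR

theorem poly_ineq {p q : ℝ} (hp1 : -1 ≤ p) (hp2 : p ≤ 1) (hq1 : -1 ≤ q) (hq2 : q ≤ 1) :
    3 / 8 * ((1 + q) + (1 + p)) - 4 * ((1 + q) * p ^ 2 + (1 + p) * q ^ 2) ≤ (1 - p) * (1 - q) := by
  obtain ⟨s, hs⟩ : ∃ s, s = p + q := ⟨_, rfl⟩
  obtain ⟨m, hm⟩ : ∃ m, m = p * q := ⟨_, rfl⟩
  have h1 : m ≤ s ^ 2 / 4 := by
    rw [hm, hs]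
    nlinarith [sq_nonneg (p - q)]
  have h2 : s - 1 ≤ m := by
    rw [hm, hs]
    nlinarith [mul_nonneg (sub_nonneg.2 hp2) (sub_nonneg.2 hq2)]
  have e : (1 - p) * (1 - q) -
      (3 / 8 * ((1 + q) + (1 + p)) - 4 * ((1 + q) * p ^ 2 + (1 + p) * q ^ 2)) =
      1 / 4 - 11 / 8 * s + 4 * s ^ 2 + m * (4 * s - 7) := by
    rw [hm, hs]
    ring
  have hs2 : -2 ≤ s := by rw [hs]; linarith
  have key : 0 ≤ 1 / 4 - 11 / 8 * s + 4 * s ^ 2 + m * (4 * s - 7) := by
    rcases le_total (4 * s - 7) 0 with h | h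
    · have h3 : s ^ 2 / 4 * (4 * s - 7) ≤ m * (4 * s - 7) := mul_le_mul_of_nonpos_right h1 h
      have h4 : 0 ≤ 1 / 4 - 11 / 8 * s + 4 * s ^ 2 + s ^ 2 / 4 * (4 * s - 7) := by
        rcases le_total s 0 with h5 | h5
        · nlinarith [mul_nonneg (sq_nonneg s) (by linarith : (0:ℝ) ≤ s + 2)]
        · nlinarith [mul_nonneg (sq_nonneg s) h5, sq_nonneg (s - 11 / 36)]
      linarith
    · have h3 : (s - 1) * (4 * s - 7) ≤ m * (4 * s - 7) := mul_le_mul_of_nonneg_right h2 h
      nlinarith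
  linarith

theorem ptwise {a0 a1 b0 b1 X Y D D' : ℝ} (ha0 : 0 ≤ a0) (ha1 : 0 ≤ a1) (hb0 : 0 ≤ b0)
    (hb1 : 0 ≤ b1) (hX : X = (a0 + a1) / 2) (hY : Y = (b0 + b1) / 2) (hD : D = (a0 - a1) / 2)
    (hD' : D' = (b0 - b1) / 2) :
    3 / 8 * (X * b0 + a0 * Y) - 4 * (b0 * (D ^ 2 / X) + a0 * (D' ^ 2 / Y)) ≤ a1 * b1 := by
  rcases eq_or_lt_of_le (show 0 ≤ X by rw [hX]; positivity) with h | h
  · have h1 : a0 = 0 := by linarith
    have h2 : a1 = 0 := by linarith
    rw [← h, h1, h2]
    simp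
  rcases eq_or_lt_of_le (show 0 ≤ Y by rw [hY]; positivity) with h' | h'
  · have h1 : b0 = 0 := by linarith
    have h2 : b1 = 0 := by linarith
    rw [← h', h1, h2]
    simp
  obtain ⟨p, hp⟩ : ∃ p, p = D / X := ⟨_, rfl⟩
  obtain ⟨q, hq⟩ : ∃ q, q = D' / Y := ⟨_, rfl⟩
  have eD : D = X * p := by rw [hp]; field_simp
  have eD' : D' = Y * q := by rw [hq]; field_simp
  have e1 : a0 = X * (1 + p) := by rw [mul_add, mul_one, ← eD, hX, hD]; ring
  have e2 : a1 = X * (1 - p) := by rw [mul_sub, mul_one, ← eD, hX, hD]; ring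
  have e3 : b0 = Y * (1 + q) := by rw [mul_add, mul_one, ← eD', hY, hD']; ring
  have e4 : b1 = Y * (1 - q) := by rw [mul_sub, mul_one, ← eD', hY, hD']; ring
  have p1 : 0 ≤ 1 + p := by
    by_contra hc
    push Not at hc
    nlinarith
  have p2 : 0 ≤ 1 - p := by
    by_contra hc
    push Not at hc
    nlinarith
  have q1 : 0 ≤ 1 + q := by
    by_contra hc
    push Not at hc
    nlinarith
  have q2 : 0 ≤ 1 - q := by
    by_contra hc
    push Not at hc
    nlinarith
  have h1 := poly_ineq (p := p) (q := q) (by linarith) (by linarith) (by linarith) (by linarith)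
  have h2 := mul_le_mul_of_nonneg_left h1 (mul_nonneg h.le h'.le)
  have e5 : D ^ 2 / X = X * p ^ 2 := by
    rw [eD]
    field_simp
  have e6 : D' ^ 2 / Y = Y * q ^ 2 := by
    rw [eD']
    field_simp
  rw [e5, e6, e3, e1, e2, e4]
  have e7 : 3 / 8 * (X * (Y * (1 + q)) + X * (1 + p) * Y) -
      4 * (Y * (1 + q) * (X * p ^ 2) + X * (1 + p) * (Y * q ^ 2)) =
      X * Y * (3 / 8 * ((1 + q) + (1 + p)) - 4 * ((1 + q) * p ^ 2 + (1 + p) * q ^ 2)) := by ring
  rw [e7]
  refine h2.trans (le_of_eq ?_)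
  ring

variable {I : Type} [Fintype I] [DecidableEq I]

/-- The average of `a` over the subsets of `T`. -/
noncomputable def al (a : Finset I → ℝ) (T : Finset I) : ℝ := av fun z => a (z ∩ T)

/-- The coordinate `i` is fixed to `0`. -/
noncomputable def A0 (a : Finset I → ℝ) (T : Finset I) (i : I) : ℝ :=
  av fun z => a ((z ∩ T).erase i)

/-- The coordinate `i` is fixed to `1`. -/
noncomputable def A1 (a : Finset I → ℝ) (T : Finset I) (i : I) : ℝ :=
  av fun z => a (insert i (z ∩ T))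

theorem al_mem (a : Finset I → ℝ) {T : Finset I} {i : I} (hi : i ∈ T) :
    al a T = (A0 a T i + A1 a T i) / 2 := by
  unfold al A0 A1
  rw [av_split i (fun z => a (z ∩ T))]
  congr 2
  · congr 1
    funext z
    rw [erase_inter]
  · congr 1
    funext z
    rw [insert_inter_of_mem hi]

theorem D_mem (a : Finset I → ℝ) {T : Finset I} {i : I} (hi : i ∈ T) :
    av (fun z => chi i z * a (z ∩ T)) = (A0 a T i - A1 a T i) / 2 := by
  unfold A0 A1
  rw [av_split i (fun z => chi i z * a (z ∩ T)), sub_eq_add_neg]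
  congr 2
  · congr 1
    funext z
    unfold chi
    rw [if_neg (notMem_erase i z), one_mul, erase_inter]
  · rw [show -av (fun z => a (insert i (z ∩ T))) = (-1) * av (fun z => a (insert i (z ∩ T))) by ring,
      ← av_mul]
    congr 1
    funext z
    unfold chi
    rw [if_pos (mem_insert_self i z), insert_inter_of_mem hi]

theorem al_notMem (a : Finset I → ℝ) {T : Finset I} {i : I} (hi : i ∉ T) : al a T = A0 a T i := by
  unfold al A0
  congr 1
  funext z
  rw [erase_eq_of_notMem fun h => hi (mem_inter.1 h).2]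

theorem A0_inv (a : Finset I → ℝ) (T : Finset I) (i : I) : A0 a (insert i T) i = A0 a (T.erase i) i := by
  unfold A0
  congr 1
  funext z
  congr 1
  ext j
  simp only [mem_erase, mem_inter, mem_insert]
  tauto

theorem A1_inv (a : Finset I → ℝ) (T : Finset I) (i : I) : A1 a (insert i T) i = A1 a (T.erase i) i := by
  unfold A1
  congr 1
  funext z
  congr 1
  ext j
  simp only [mem_erase, mem_inter, mem_insert]
  tauto

/-- The average of an invariant function over the sets which contain `i`. -/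
theorem av_inv {i : I} {g : Finset I → ℝ} (hg : ∀ T, g (insert i T) = g (T.erase i)) :
    av (fun T => if i ∈ T then g T else 0) = av g / 2 ∧
    av (fun T => if i ∈ T then 0 else g T) = av g / 2 := by
  have h1 : ∀ T : Finset I, g (insert i T) = g T := by
    intro T
    by_cases h : i ∈ T
    · rw [insert_eq_of_mem h]
    · rw [hg T, erase_eq_of_notMem h]
  have h2 : ∀ T : Finset I, g (T.erase i) = g T := fun T => (hg T).symm.trans (h1 T)
  constructor
  · rw [av_split i (fun T => if i ∈ T then g T else 0)]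
    congr 1
    have e1 : (fun z : Finset I => if i ∈ z.erase i then g (z.erase i) else 0) = fun _ => (0:ℝ) := by
      funext z
      rw [if_neg (notMem_erase i z)]
    have e2 : (fun z : Finset I => if i ∈ insert i z then g (insert i z) else 0) = g := by
      funext z
      rw [if_pos (mem_insert_self i z), h1]
    rw [e1, e2, av_const, zero_add]
  · rw [av_split i (fun T => if i ∈ T then 0 else g T)]
    congr 1
    have e1 : (fun z : Finset I => if i ∈ z.erase i then 0 else g (z.erase i)) = g := by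
      funext z
      rw [if_neg (notMem_erase i z), h2]
    have e2 : (fun z : Finset I => if i ∈ insert i z then 0 else g (insert i z)) = fun _ => (0:ℝ) := by
      funext z
      rw [if_pos (mem_insert_self i z)]
    rw [e1, e2, av_const, add_zero]

theorem small_bias (a : Finset I → ℝ) (h0 : ∀ z, 0 ≤ a z) (h1 : ∀ z, a z ≤ 1) (Γ T : Finset I)
    {c β : ℝ} (hc : 0 ≤ c) (hβ0 : 0 ≤ β) (hβ1 : β ≤ 1) :
    ∑ i ∈ Γ, β * (av (fun z => chi i z * a (z ∩ T)) ^ 2 / al a T) ≤
      2 * c * Γ.card * (al a T * β) + Γ.card * Real.exp (-(c * Γ.card)) := by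
  have hal0 : 0 ≤ al a T := av_nonneg fun z => h0 _
  have hal1 : al a T ≤ 1 := av_le_one fun z => h1 _
  have hΓ : (0:ℝ) ≤ Γ.card := Nat.cast_nonneg _
  have hexp := (Real.exp_pos (-(c * Γ.card))).le
  have hr1 : 0 ≤ 2 * c * Γ.card * (al a T * β) := by positivity
  have hr2 : 0 ≤ Γ.card * Real.exp (-(c * Γ.card)) := by positivity
  rcases eq_or_lt_of_le hal0 with h | h
  · rw [← h]
    simp only [div_zero, mul_zero, sum_const_zero, zero_mul]
    linarith
  rw [← mul_sum, ← sum_div]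
  obtain ⟨S, hS⟩ : ∃ S, S = ∑ i ∈ Γ, av (fun z => chi i z * a (z ∩ T)) ^ 2 := ⟨_, rfl⟩
  rw [← hS]
  have hS1 : S ≤ 2 * (al a T) ^ 2 * Real.log (1 / al a T) := by
    rw [hS]
    refine (sum_le_sum_of_subset_of_nonneg (subset_univ Γ) fun i _ _ => sq_nonneg _).trans ?_
    exact level_one (fun z => a (z ∩ T)) (fun z => h0 _) (fun z => h1 _) h
  have hS2 : S ≤ Γ.card * (al a T) ^ 2 := by
    rw [hS, ← nsmul_eq_mul]
    refine sum_le_card_nsmul _ _ _ fun i _ => ?_
    refine sq_le_sq' ?_ ?_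
    · have : -al a T = av (fun z => (-1) * a (z ∩ T)) := by rw [av_mul]; unfold al; ring
      rw [this]
      refine av_mono fun z => mul_le_mul_of_nonneg_right ?_ (h0 _)
      unfold chi
      split_ifs <;> norm_num
    · unfold al
      refine av_mono fun z => ?_
      calc chi i z * a (z ∩ T) ≤ 1 * a (z ∩ T) := by
            refine mul_le_mul_of_nonneg_right ?_ (h0 _)
            unfold chi
            split_ifs <;> norm_num
        _ = _ := one_mul _
  rcases le_total (Real.exp (-(c * Γ.card))) (al a T) with h2 | h2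
  · have h3 : Real.log (1 / al a T) ≤ c * Γ.card := by
      rw [one_div, Real.log_inv]
      have := (Real.le_log_iff_exp_le h).2 h2
      linarith
    have h4 : S / al a T ≤ 2 * al a T * (c * Γ.card) := by
      rw [div_le_iff₀ h]
      refine hS1.trans ?_
      calc 2 * al a T ^ 2 * Real.log (1 / al a T) ≤ 2 * al a T ^ 2 * (c * Γ.card) := by gcongr
        _ = _ := by ring
    have h5 := mul_le_mul_of_nonneg_left h4 hβ0
    nlinarith
  · have h4 : S / al a T ≤ Γ.card * al a T := by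
      rw [div_le_iff₀ h]
      refine hS2.trans (le_of_eq ?_)
      ring
    have h5 : S / al a T ≤ Γ.card * Real.exp (-(c * Γ.card)) :=
      h4.trans (mul_le_mul_of_nonneg_left h2 hΓ)
    have h6 : β * (S / al a T) ≤ 1 * (Γ.card * Real.exp (-(c * Γ.card))) := by
      refine (mul_le_mul_of_nonneg_left h5 hβ0).trans (mul_le_mul_of_nonneg_right hβ1 hr2)
    linarith

theorem inv_compl (i : I) (g : Finset I → ℝ) (hg : ∀ T, g (insert i T) = g (T.erase i)) :
    ∀ T, g (insert i T)ᶜ = g (T.erase i)ᶜ := by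
  intro T
  have h1 : (insert i T)ᶜ = (Tᶜ).erase i := by
    ext j
    simp only [mem_compl, mem_insert, mem_erase]
    tauto
  have h2 : (T.erase i)ᶜ = insert i Tᶜ := by
    ext j
    simp only [mem_compl, mem_insert, mem_erase]
    tauto
  rw [h1, h2, hg]

/-- **Corruption bound.** -/
theorem corruption (a b : Finset I → ℝ) (ha0 : ∀ z, 0 ≤ a z) (ha1 : ∀ z, a z ≤ 1)
    (hb0 : ∀ z, 0 ≤ b z) (hb1 : ∀ z, b z ≤ 1) (Γ : Finset I) :
    Γ.card * (13 / 20 * av (fun T => al a T * al b Tᶜ) - 16 * Real.exp (-(Γ.card / 320 : ℝ))) ≤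
      ∑ i ∈ Γ, av (fun T => A1 a T i * A1 b Tᶜ i) := by
  obtain ⟨N, hN⟩ : ∃ N, N = av (fun T => al a T * al b Tᶜ) := ⟨_, rfl⟩
  obtain ⟨W, hW⟩ : ∃ W : (Finset I → ℝ) → (Finset I → ℝ) → I → Finset I → ℝ, ∀ a b i T, W a b i T =
    A0 b Tᶜ i * (((A0 a T i - A1 a T i) / 2) ^ 2 / ((A0 a T i + A1 a T i) / 2)) := ⟨_, fun _ _ _ _ => rfl⟩
  have hA0 : ∀ (a : Finset I → ℝ), (∀ z, 0 ≤ a z) → ∀ T i, 0 ≤ A0 a T i := fun a h T i =>
    av_nonneg fun z => h _
  have hA1 : ∀ (a : Finset I → ℝ), (∀ z, 0 ≤ a z) → ∀ T i, 0 ≤ A1 a T i := fun a h T i =>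
    av_nonneg fun z => h _
  -- the average of W
  have key : ∀ a b : Finset I → ℝ, (∀ z, 0 ≤ a z) → (∀ z, a z ≤ 1) → (∀ z, 0 ≤ b z) →
      (∀ z, b z ≤ 1) → ∑ i ∈ Γ, av (W a b i) ≤
      2 * (2 * (1 / 320) * Γ.card * av (fun T => al a T * al b Tᶜ) +
        Γ.card * Real.exp (-(1 / 320 * Γ.card : ℝ))) := by
    intro a b ha0 ha1 hb0 hb1
    have h1 : ∀ i ∈ Γ, av (W a b i) ≤ 2 * av (fun T => al b Tᶜ *
        (av (fun z => chi i z * a (z ∩ T)) ^ 2 / al a T)) := by
      intro i _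
      have h2 := (av_inv (i := i) (g := W a b i) (by
        intro T
        rw [hW, hW, A0_inv, A1_inv, inv_compl i (fun T => A0 b T i) (fun T => A0_inv b T i)])).1
      have h3 : av (W a b i) = 2 * av (fun T => if i ∈ T then W a b i T else 0) := by
        rw [h2]
        ring
      rw [h3]
      refine mul_le_mul_of_nonneg_left (av_mono fun T => ?_) (by norm_num)
      by_cases hi : i ∈ T
      · rw [if_pos hi, hW, D_mem a hi, al_mem a hi,
          al_notMem b (i := i) (T := Tᶜ) (by rw [mem_compl]; exact fun h => h hi)]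
      · rw [if_neg hi]
        exact mul_nonneg (av_nonneg fun z => hb0 _)
          (div_nonneg (sq_nonneg _) (av_nonneg fun z => ha0 _))
    refine (sum_le_sum h1).trans ?_
    rw [← mul_sum, ← av_sum]
    refine mul_le_mul_of_nonneg_left ?_ (by norm_num)
    rw [← av_mul (2 * (1 / 320) * (Γ.card : ℝ)) (fun T => al a T * al b Tᶜ),
      ← av_const (I := I) (Γ.card * Real.exp (-(1 / 320 * Γ.card : ℝ))), ← av_add]
    exact av_mono fun T => small_bias a ha0 ha1 Γ T (by norm_num) (av_nonneg fun z => hb0 _)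
      (av_le_one fun z => hb1 _)
  -- the average of the products
  have hsum : ∀ i, av (fun T => (A0 a T i + A1 a T i) / 2 * A0 b Tᶜ i +
      A0 a T i * ((A0 b Tᶜ i + A1 b Tᶜ i) / 2)) = 2 * N := by
    intro i
    rw [av_add]
    have h1 := (av_inv (i := i) (g := fun T => (A0 a T i + A1 a T i) / 2 * A0 b Tᶜ i) (by
        intro T
        rw [A0_inv, A1_inv, inv_compl i (fun T => A0 b T i) (fun T => A0_inv b T i)])).1
    have h2 := (av_inv (i := i) (g := fun T => A0 a T i * ((A0 b Tᶜ i + A1 b Tᶜ i) / 2)) (by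
        intro T
        rw [A0_inv, inv_compl i (fun T => A0 b T i) (fun T => A0_inv b T i),
          inv_compl i (fun T => A1 b T i) (fun T => A1_inv b T i)])).2
    have h3 : ∀ T : Finset I, (if i ∈ T then (A0 a T i + A1 a T i) / 2 * A0 b Tᶜ i else 0) +
        (if i ∈ T then 0 else A0 a T i * ((A0 b Tᶜ i + A1 b Tᶜ i) / 2)) = al a T * al b Tᶜ := by
      intro T
      by_cases hi : i ∈ T
      · rw [if_pos hi, if_pos hi, add_zero, al_mem a hi,
          al_notMem b (i := i) (T := Tᶜ) (by rw [mem_compl]; exact fun h => h hi)]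
      · rw [if_neg hi, if_neg hi, zero_add, al_notMem a hi,
          al_mem b (i := i) (T := Tᶜ) (by rw [mem_compl]; exact hi)]
    have h4 : av (fun T => al a T * al b Tᶜ) =
        av (fun T => if i ∈ T then (A0 a T i + A1 a T i) / 2 * A0 b Tᶜ i else 0) +
        av (fun T => if i ∈ T then 0 else A0 a T i * ((A0 b Tᶜ i + A1 b Tᶜ i) / 2)) := by
      rw [← av_add]
      congr 1
      funext T
      exact (h3 T).symm
    rw [hN, h4, h1, h2]
    ring
  have hmain : ∀ i ∈ Γ, 3 / 4 * N - 4 * (av (W a b i) + av (fun T => W b a i Tᶜ)) ≤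
      av (fun T => A1 a T i * A1 b Tᶜ i) := by
    intro i _
    have e : 3 / 4 * N - 4 * (av (W a b i) + av (fun T => W b a i Tᶜ)) =
        av (fun T => 3 / 8 * ((A0 a T i + A1 a T i) / 2 * A0 b Tᶜ i +
          A0 a T i * ((A0 b Tᶜ i + A1 b Tᶜ i) / 2)) +
          (-4) * (W a b i T + W b a i Tᶜ)) := by
      rw [av_add, av_mul, av_mul, hsum, av_add]
      ring
    rw [e]
    refine av_mono fun T => ?_
    have h1 := ptwise (hA0 a ha0 T i) (hA1 a ha0 T i) (hA0 b hb0 Tᶜ i) (hA1 b hb0 Tᶜ i) rfl rfl rfl rfl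
    rw [hW, hW, compl_compl]
    linarith
  have hk1 := key a b ha0 ha1 hb0 hb1
  have hk2 := key b a hb0 hb1 ha0 ha1
  have hflip : ∀ g : Finset I → ℝ, av (fun T => g Tᶜ) = av g := by
    intro g
    unfold av
    congr 1
    exact Equiv.sum_comp (Equiv.ofBijective _ compl_bijective) g
  have e2 : av (fun T => al b T * al a Tᶜ) = N := by
    rw [hN, ← hflip]
    congr 1
    funext T
    rw [compl_compl, mul_comm]
  rw [← hN] at hk1
  rw [e2] at hk2
  have e3 : ∀ i, av (fun T => W b a i Tᶜ) = av (W b a i) := fun i => hflip (W b a i)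
  have hfin := sum_le_sum hmain
  rw [sum_sub_distrib, sum_const, nsmul_eq_mul, ← mul_sum, sum_add_distrib,
    sum_congr rfl fun i _ => e3 i] at hfin
  rw [← hN]
  have e4 : (1 / 320 * Γ.card : ℝ) = Γ.card / 320 := by ring
  rw [e4] at hk1 hk2
  refine le_trans ?_ hfin
  nlinarith

end Run7.h156.CR
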