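import Pool.Agent.Run7.h156.CR.One

/-!
# The explicit bound
-/

set_option autoImplicit false

open Finset

namespace Run7.h156.CR

theorem big_pow {h r k : ℕ} (hh : 2 ≤ h) (hr : 1 ≤ r) (hk : 2 * h ≤ k) :
    4 * 10 ^ 16 * h ^ 11 * r ^ 2 * 4 ^ (h ^ 2 * (128000 * h ^ 4 * r - 1)) ≤ 2 ^ (5000 * k ^ 6 * r) := by
  have h1 : 4 * 10 ^ 16 ≤ 2 ^ 56 := by norm_num
  have h2 : h ^ 11 ≤ 2 ^ (11 * h) := by
    rw [mul_comm, pow_mul]
    exact Nat.pow_le_pow_left Nat.lt_two_pow_self.le _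
  have h3 : r ^ 2 ≤ 2 ^ (2 * r) := by
    rw [mul_comm, pow_mul]
    exact Nat.pow_le_pow_left Nat.lt_two_pow_self.le _
  have h4 : 4 ^ (h ^ 2 * (128000 * h ^ 4 * r - 1)) ≤ 2 ^ (256000 * (h ^ 6 * r)) := by
    calc 4 ^ (h ^ 2 * (128000 * h ^ 4 * r - 1)) ≤ 4 ^ (h ^ 2 * (128000 * h ^ 4 * r)) :=
          Nat.pow_le_pow_right (by norm_num) (Nat.mul_le_mul_left _ (Nat.sub_le _ _))
      _ = (2 ^ 2) ^ (128000 * (h ^ 6 * r)) := by
          congr 1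
          ring
      _ = 2 ^ (256000 * (h ^ 6 * r)) := by
          rw [← pow_mul]
          congr 1
          ring
  have h5 : 64 * h ^ 6 ≤ k ^ 6 := by
    calc 64 * h ^ 6 = (2 * h) ^ 6 := by ring
      _ ≤ k ^ 6 := Nat.pow_le_pow_left hk 6
  have h6 : 320000 * (h ^ 6 * r) ≤ 5000 * k ^ 6 * r := by
    calc 320000 * (h ^ 6 * r) = 5000 * (64 * h ^ 6) * r := by ring
      _ ≤ _ := Nat.mul_le_mul_right _ (Nat.mul_le_mul_left _ h5)
  have h7 : h ≤ h ^ 6 * r := by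
    calc h = h ^ 1 * 1 := by ring
      _ ≤ h ^ 6 * r := Nat.mul_le_mul (Nat.pow_le_pow_right (by omega) (by norm_num)) hr
  have h8 : r ≤ h ^ 6 * r := Nat.le_mul_of_pos_left _ (by positivity)
  calc 4 * 10 ^ 16 * h ^ 11 * r ^ 2 * 4 ^ (h ^ 2 * (128000 * h ^ 4 * r - 1))
      ≤ 2 ^ 56 * 2 ^ (11 * h) * 2 ^ (2 * r) * 2 ^ (256000 * (h ^ 6 * r)) := by gcongr
    _ = 2 ^ (56 + 11 * h + 2 * r + 256000 * (h ^ 6 * r)) := by
        rw [pow_add, pow_add, pow_add]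
    _ ≤ _ := Nat.pow_le_pow_right (by norm_num) (by omega)

/-- **The explicit bound.** -/
theorem explicit {O Z Ω : Type} [Fintype O] [Fintype Z] [Fintype Ω] {k s n κ θ b r : ℕ}
    (hks : k + 4 ≤ 2 * s) (hsk : s ≤ k) (hn : 2 * k ≤ n) (hr : 1 ≤ r) (hb : 1 ≤ b)
    (μ : Ω → ℝ) (hμ0 : ∀ ω, 0 ≤ μ ω) (hμ1 : ∑ ω, μ ω = 1)
    (C : Ω → WordCircuit (Sym2 (Fin n)) O Z) (ans : Ω → (O → Bool) → Bool)
    (hκ : ∀ ω, (C ω).FanIn κ) (hθ : ∀ ω, (C ω).TreewidthLE θ)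
    (hL : Fintype.card Z ≤ 2 ^ b) (hR : ∑ ω, μ ω * (C ω).reads ≤ r * (n : ℝ) ^ 2)
    (hyes : ∀ G : SimpleGraph (Fin n), ¬ G.CliqueFree k →
      ∑ ω, μ ω * ind (ans ω ((C ω).output (bits G)) = false) ≤ 1 / 3)
    (hno : ∀ G : SimpleGraph (Fin n), G.CliqueFree s →
      2 / 3 ≤ ∑ ω, μ ω * ind (ans ω ((C ω).output (bits G)) = false)) :
    n ≤ 2 ^ (5000 * k ^ 6 * r) * ((κ + 1) * (θ + 1 + Fintype.card O) * b) := by
  classical
  by_contra hcon
  push Not at hcon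
  obtain ⟨h, hh⟩ : ∃ h, h = k - s + 2 := ⟨_, rfl⟩
  obtain ⟨q, hq⟩ : ∃ q, q = k - 2 * h := ⟨_, rfl⟩
  have hk1 : 2 * h + q = k := by omega
  have hs1 : h + q + 2 = s := by omega
  have hh2 : 2 ≤ h := by omega
  obtain ⟨m, hm⟩ : ∃ m, m = (n - q) / (2 * h) := ⟨_, rfl⟩
  have h2h : 0 < 2 * h := by omega
  have hm1 : 2 * h * m + q ≤ n := by
    have := Nat.mul_div_le (n - q) (2 * h)
    rw [← hm] at this
    omega
  have hm2 : n ≤ 4 * h * m := by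
    have h1 := Nat.lt_mul_div_succ (n - q) h2h
    rw [← hm] at h1
    have h2 : 2 * h * (m + 1) = 2 * h * m + 2 * h := by ring
    have h3 : 4 * h * m = 2 * h * m + 2 * h * m := by ring
    omega
  have hm3 : 1 ≤ m := by
    rw [hm, Nat.le_div_iff_mul_le h2h]
    omega
  haveI : NeZero m := ⟨by omega⟩
  have hcI : Fintype.card (ZMod m) = m := ZMod.card m
  obtain ⟨φ⟩ : Nonempty ((((Bool × Fin h) × ZMod m) ⊕ Fin q) ↪ Fin n) := by
    apply Function.Embedding.nonempty_of_card_le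
    rw [Fintype.card_sum, Fintype.card_prod, Fintype.card_prod, Fintype.card_bool,
      Fintype.card_fin, hcI, Fintype.card_fin, Fintype.card_fin]
    exact hm1
  haveI : Nonempty (((Bool × Fin h) × ZMod m) ⊕ Fin q) :=
    ⟨Sum.inl ((true, ⟨0, by omega⟩), 0)⟩
  -- the parameters
  obtain ⟨r', hr'⟩ : ∃ r', r' = 128000 * h ^ 4 * r - 1 := ⟨_, rfl⟩
  obtain ⟨w, hw⟩ : ∃ w, w = m ^ 2 / (64000 * h ^ 6 * r) := ⟨_, rfl⟩
  obtain ⟨lam, hlam⟩ : ∃ lam, lam = 5 * 4 ^ (h ^ 2 * r') := ⟨_, rfl⟩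
  obtain ⟨m₀, hm₀⟩ : ∃ m₀, m₀ = m / (100 * lam) := ⟨_, rfl⟩
  obtain ⟨s₀, hs₀⟩ : ∃ s₀, s₀ = 10 ^ 9 * h ^ 8 * r ^ 2 := ⟨_, rfl⟩
  obtain ⟨b₀, hb₀⟩ : ∃ b₀, b₀ = s₀ * (2 * (θ + 1)) + Fintype.card O := ⟨_, rfl⟩
  obtain ⟨R, hRd⟩ : ∃ R, R = 40 * r * n ^ 2 := ⟨_, rfl⟩
  obtain ⟨X, hX⟩ : ∃ X, X = (κ + 1) * b₀ * b := ⟨_, rfl⟩
  have hh6 : 1 ≤ h ^ 6 * r := Nat.mul_pos (Nat.pow_pos (by omega)) hr
  have hh4 : 1 ≤ h ^ 4 * r := Nat.mul_pos (Nat.pow_pos (by omega)) hr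
  have hr1 : r' + 1 = 128000 * h ^ 4 * r := by
    have : 128000 * h ^ 4 * r = 128000 * (h ^ 4 * r) := by ring
    omega
  have hlam1 : 5 ≤ lam := by
    rw [hlam]
    have : 1 ≤ 4 ^ (h ^ 2 * r') := Nat.one_le_pow _ _ (by norm_num)
    omega
  have hs₀1 : 1 ≤ s₀ := by
    rw [hs₀]
    have : 1 ≤ h ^ 8 * r ^ 2 := Nat.mul_pos (Nat.pow_pos (by omega)) (Nat.pow_pos hr)
    calc 1 ≤ 10 ^ 9 * (h ^ 8 * r ^ 2) := by omega
      _ = _ := by ring
  have hb₀1 : 1 ≤ b₀ := by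
    rw [hb₀]
    have : 1 ≤ s₀ * (2 * (θ + 1)) := Nat.mul_pos hs₀1 (by omega)
    omega
  have hX1 : 1 ≤ X := by
    rw [hX]
    exact Nat.mul_pos (Nat.mul_pos (Nat.succ_pos _) hb₀1) hb
  -- the assumption
  have hA : 10 ^ 6 * h ^ 2 * lam * X ≤ m := by
    have e1 : b₀ ≤ 2 * 10 ^ 9 * h ^ 8 * r ^ 2 * (θ + 1 + Fintype.card O) := by
      have : Fintype.card O ≤ s₀ * (2 * Fintype.card O) := by
        calc Fintype.card O ≤ 1 * (2 * Fintype.card O) := by omega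
          _ ≤ _ := Nat.mul_le_mul_right _ hs₀1
      calc b₀ ≤ s₀ * (2 * (θ + 1)) + s₀ * (2 * Fintype.card O) := by rw [hb₀]; omega
        _ = _ := by rw [hs₀]; ring
    have e2 : 4 * h * (10 ^ 6 * h ^ 2 * lam * X) ≤ 4 * h * m := by
      calc 4 * h * (10 ^ 6 * h ^ 2 * lam * X)
          = 2 * 10 ^ 7 * h ^ 3 * 4 ^ (h ^ 2 * r') * ((κ + 1) * b₀ * b) := by
            rw [hlam, hX]
            ring
        _ ≤ 2 * 10 ^ 7 * h ^ 3 * 4 ^ (h ^ 2 * r') * ((κ + 1) *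
            (2 * 10 ^ 9 * h ^ 8 * r ^ 2 * (θ + 1 + Fintype.card O)) * b) := by gcongr
        _ = (4 * 10 ^ 16 * h ^ 11 * r ^ 2 * 4 ^ (h ^ 2 * r')) *
            ((κ + 1) * (θ + 1 + Fintype.card O) * b) := by ring
        _ ≤ 2 ^ (5000 * k ^ 6 * r) * ((κ + 1) * (θ + 1 + Fintype.card O) * b) := by
            rw [hr']
            exact Nat.mul_le_mul_right _ (big_pow hh2 hr (by omega))
        _ ≤ 4 * h * m := hcon.le.trans hm2
    exact Nat.le_of_mul_le_mul_left e2 (by omega)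
  have hm4 : 64000 * h ^ 6 * r ≤ m := by
    have e1 : h ^ 2 * r' < 4 ^ (h ^ 2 * r') := Nat.lt_pow_self (by norm_num)
    have e2 : h ^ 4 * r ≤ r' := by
      have : 128000 * h ^ 4 * r = 128000 * (h ^ 4 * r) := by ring
      omega
    calc 64000 * h ^ 6 * r = 64000 * (h ^ 2 * (h ^ 4 * r)) := by ring
      _ ≤ 64000 * (h ^ 2 * r') := by gcongr
      _ ≤ 64000 * 4 ^ (h ^ 2 * r') := Nat.mul_le_mul_left _ e1.le
      _ ≤ 10 ^ 6 * 1 * lam * 1 := by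
          rw [hlam]
          omega
      _ ≤ 10 ^ 6 * h ^ 2 * lam * X := by
          have : 1 ≤ h ^ 2 := Nat.one_le_pow _ _ (by omega)
          gcongr
      _ ≤ m := hA
  have hD0 : 0 < 64000 * h ^ 6 * r := by
    have : 64000 * h ^ 6 * r = 64000 * (h ^ 6 * r) := by ring
    omega
  have hm5 : m ≤ m ^ 2 := by
    rw [sq]
    exact Nat.le_mul_of_pos_left _ (by omega)
  have hw1 : 1 ≤ w := by
    rw [hw, Nat.le_div_iff_mul_le hD0]
    omega
  have hw2 : w * (64000 * h ^ 6 * r) ≤ m ^ 2 := by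
    rw [hw]
    exact Nat.div_mul_le_self _ _
  have hw3 : m ^ 2 ≤ 128000 * h ^ 6 * r * w := by
    have h1 := Nat.lt_mul_div_succ (m ^ 2) hD0
    rw [← hw] at h1
    have h2 : 64000 * h ^ 6 * r * (w + 1) ≤ 64000 * h ^ 6 * r * (2 * w) :=
      Nat.mul_le_mul_left _ (by omega)
    calc m ^ 2 ≤ 64000 * h ^ 6 * r * (2 * w) := h1.le.trans h2
      _ = _ := by ring
  have hRm : R ≤ 640 * h ^ 2 * r * m ^ 2 := by
    rw [hRd]
    calc 40 * r * n ^ 2 ≤ 40 * r * (4 * h * m) ^ 2 := by gcongr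
      _ = _ := by ring
  have hs : ∀ t, w * t ≤ 8 * R + w → t ≤ s₀ := by
    intro t ht
    have h1 : w * t ≤ w * s₀ := by
      calc w * t ≤ 8 * R + w := ht
        _ ≤ 8 * (640 * h ^ 2 * r * (128000 * h ^ 6 * r * w)) + w := by
            refine Nat.add_le_add_right (Nat.mul_le_mul_left _ (hRm.trans ?_)) _
            gcongr
        _ = w * (655360000 * (h ^ 8 * r ^ 2) + 1) := by ring
        _ ≤ w * s₀ := by
            refine Nat.mul_le_mul_left _ ?_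
            rw [hs₀]
            have : 1 ≤ h ^ 8 * r ^ 2 := Nat.mul_pos (Nat.pow_pos (by omega)) (Nat.pow_pos hr)
            calc _ ≤ 10 ^ 9 * (h ^ 8 * r ^ 2) := by omega
              _ = _ := by ring
    exact Nat.le_of_mul_le_mul_left h1 hw1
  have hm₀1 : 10 ^ 4 * h ^ 2 * X ≤ m₀ := by
    rw [hm₀, Nat.le_div_iff_mul_le (by omega)]
    refine le_trans (le_of_eq ?_) hA
    ring
  have hm₀2 : m₀ * (100 * lam) ≤ m := by
    rw [hm₀]
    exact Nat.div_mul_le_self _ _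
  -- the bound of random circuits
  have key := random_circuits φ μ hμ0 hμ1 C ans hκ hθ hL (Nat.one_le_two_pow) (R := R) (w := w)
    (s₀ := s₀) (b₀ := b₀)
    (by
      rw [hRd]
      have : 1 ≤ n ^ 2 := Nat.one_le_pow _ _ (by omega)
      exact Nat.mul_pos (by omega) this)
    (by
      rw [hRd]
      push_cast
      linarith) hs hb₀ r' lam m₀ (by rw [hcI]; exact hm3)
    (by rw [hk1]; exact hyes) (by rw [hs1]; exact hno)
  rw [hcI] at key
  -- the terms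
  have hmR : (0:ℝ) < m := by exact_mod_cast hm3
  have hhR : (0:ℝ) < h := by
    have : 0 < h := by omega
    exact_mod_cast this
  have hrR : (0:ℝ) < r := by exact_mod_cast hr
  have t1 : 16 * (((2 ^ b : ℕ) : ℝ)) ^ ((κ + 1) * b₀) * Real.exp (-(m₀ / 320 : ℝ)) ≤ 1 / 100 := by
    have e1 : (((2 ^ b : ℕ) : ℝ)) ^ ((κ + 1) * b₀) ≤ Real.exp X := by
      rw [Nat.cast_pow, ← pow_mul, show b * ((κ + 1) * b₀) = X by rw [hX]; ring, Nat.cast_ofNat]
      calc (2:ℝ) ^ X ≤ (Real.exp 1) ^ X := by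
            refine pow_le_pow_left₀ (by norm_num) ?_ _
            have := Real.exp_one_gt_d9
            linarith
        _ = Real.exp X := by rw [← Real.exp_nat_mul, mul_one]
    have e2 : (40000 : ℝ) * X ≤ m₀ := by
      have : 40000 * X ≤ m₀ := by
        refine le_trans ?_ hm₀1
        have h4 : 4 ≤ h ^ 2 := by nlinarith
        nlinarith
      exact_mod_cast this
    have e3 : (1:ℝ) ≤ X := by exact_mod_cast hX1
    have e4 : Real.exp X * Real.exp (-(m₀ / 320 : ℝ)) ≤ Real.exp (-8) := by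
      rw [← Real.exp_add]
      apply Real.exp_le_exp.2
      linarith
    have e5 : Real.exp (-8) ≤ 1 / 1600 := by
      rw [Real.exp_neg, ← one_div]
      apply one_div_le_one_div_of_le (by norm_num)
      have e6 : (2.7 : ℝ) ^ 8 ≤ (Real.exp 1) ^ 8 := by
        refine pow_le_pow_left₀ (by norm_num) ?_ _
        have := Real.exp_one_gt_d9
        linarith
      have e7 : (Real.exp 1) ^ 8 = Real.exp 8 := by
        rw [← Real.exp_nat_mul]
        norm_num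
      rw [← e7]
      refine le_trans ?_ e6
      norm_num
    have e6 : 16 * (((2 ^ b : ℕ) : ℝ)) ^ ((κ + 1) * b₀) * Real.exp (-(m₀ / 320 : ℝ)) ≤
        16 * (Real.exp X * Real.exp (-(m₀ / 320 : ℝ))) := by
      rw [mul_assoc]
      refine mul_le_mul_of_nonneg_left ?_ (by norm_num)
      exact mul_le_mul_of_nonneg_right e1 (Real.exp_pos _).le
    linarith
  have t2 : 2 * (h : ℝ) ^ 2 * (κ * b₀) / (m : ℝ) ^ 2 ≤ 1 / 100 := by
    rw [div_le_div_iff₀ (by positivity) (by norm_num)]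
    have e1 : 2 * h ^ 2 * (κ * b₀) * 100 ≤ 1 * m ^ 2 := by
      have e2 : κ * b₀ ≤ X := by
        rw [hX]
        calc κ * b₀ ≤ (κ + 1) * b₀ * 1 := by
              rw [mul_one]
              exact Nat.mul_le_mul_right _ (Nat.le_succ _)
          _ ≤ _ := Nat.mul_le_mul_left _ hb
      calc 2 * h ^ 2 * (κ * b₀) * 100 ≤ 2 * h ^ 2 * X * 100 := by gcongr
        _ = 200 * h ^ 2 * 1 * X := by ring
        _ ≤ 10 ^ 6 * h ^ 2 * lam * X := by
            have : 1 ≤ lam := by omega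
            gcongr
            norm_num
        _ ≤ m := hA
        _ ≤ m ^ 2 := hm5
        _ = 1 * m ^ 2 := (one_mul _).symm
    exact_mod_cast e1
  have t3 : 2 * (h : ℝ) ^ 2 * (R / (r' + 1 : ℝ)) / (m : ℝ) ^ 2 ≤ 1 / 100 := by
    have e1 : (r' + 1 : ℝ) = 128000 * (h : ℝ) ^ 4 * r := by exact_mod_cast hr1
    have e2 : (R : ℝ) ≤ 640 * (h : ℝ) ^ 2 * r * (m : ℝ) ^ 2 := by exact_mod_cast hRm
    rw [e1, div_le_iff₀ (by positivity), mul_div_assoc', div_le_iff₀ (by positivity)]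
    calc 2 * (h : ℝ) ^ 2 * R ≤ 2 * (h : ℝ) ^ 2 * (640 * (h : ℝ) ^ 2 * r * (m : ℝ) ^ 2) := by gcongr
      _ = 1 / 100 * (m : ℝ) ^ 2 * (128000 * (h : ℝ) ^ 4 * r) := by ring
  have t4 : (h : ℝ) ^ 4 * (R * w) / (m : ℝ) ^ 4 ≤ 1 / 100 := by
    rw [div_le_div_iff₀ (by positivity) (by norm_num)]
    have e1 : h ^ 4 * (R * w) * 100 ≤ 1 * m ^ 4 := by
      calc h ^ 4 * (R * w) * 100 ≤ h ^ 4 * (640 * h ^ 2 * r * m ^ 2 * w) * 100 := by gcongr
        _ = (w * (64000 * h ^ 6 * r)) * m ^ 2 := by ring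
        _ ≤ m ^ 2 * m ^ 2 := Nat.mul_le_mul_right _ hw2
        _ = 1 * m ^ 4 := by ring
    exact_mod_cast e1
  have t5 : (1 - 1 / (4:ℝ) ^ (h ^ 2 * r')) ^ lam ≤ 1 / 100 := by
    have e0 : (0:ℝ) < (4:ℝ) ^ (h ^ 2 * r') := by positivity
    have e1 : 1 - 1 / (4:ℝ) ^ (h ^ 2 * r') ≤ Real.exp (-(1 / (4:ℝ) ^ (h ^ 2 * r'))) := by
      have := Real.add_one_le_exp (-(1 / (4:ℝ) ^ (h ^ 2 * r')))
      linarith
    have e2 : (0:ℝ) ≤ 1 - 1 / (4:ℝ) ^ (h ^ 2 * r') := by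
      rw [sub_nonneg, div_le_one e0]
      exact one_le_pow₀ (by norm_num)
    have e3 : (lam : ℝ) = 5 * (4:ℝ) ^ (h ^ 2 * r') := by
      rw [hlam]
      push_cast
      ring
    calc (1 - 1 / (4:ℝ) ^ (h ^ 2 * r')) ^ lam ≤ (Real.exp (-(1 / (4:ℝ) ^ (h ^ 2 * r')))) ^ lam :=
          pow_le_pow_left₀ e2 e1 _
      _ = Real.exp (-5) := by
          rw [← Real.exp_nat_mul, e3]
          congr 1
          field_simp
      _ ≤ 1 / 100 := by
          rw [Real.exp_neg, ← one_div]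
          apply one_div_le_one_div_of_le (by norm_num)
          have e6 : (2.7 : ℝ) ^ 5 ≤ (Real.exp 1) ^ 5 := by
            refine pow_le_pow_left₀ (by norm_num) ?_ _
            have := Real.exp_one_gt_d9
            linarith
          have e7 : (Real.exp 1) ^ 5 = Real.exp 5 := by
            rw [← Real.exp_nat_mul]
            norm_num
          rw [← e7]
          refine le_trans ?_ e6
          norm_num
  have t6 : (m₀ : ℝ) * lam / m ≤ 1 / 100 := by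
    rw [div_le_div_iff₀ hmR (by norm_num)]
    have e1 : m₀ * lam * 100 ≤ 1 * m := by
      calc m₀ * lam * 100 = m₀ * (100 * lam) := by ring
        _ ≤ m := hm₀2
        _ = 1 * m := (one_mul _).symm
    exact_mod_cast e1
  unfold err at key
  linarith

end Run7.h156.CR
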