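import Pool.Agent.Run7.h156.CR.Corr

/-!
# The corruption bound for labelled partitions and groups of coordinates
-/

set_option autoImplicit false

open Finset

namespace Run7.h156.CR

variable {I : Type} [Fintype I] [DecidableEq I]

/-- `x` outside of `Γ` and `y` in `Γ`. -/
def mix (Γ x y : Finset I) : Finset I := (x \ Γ) ∪ (y ∩ Γ)

omit [Fintype I] in
theorem mem_mix (Γ x y : Finset I) (i : I) : i ∈ mix Γ x y ↔ (i ∈ x ∧ i ∉ Γ) ∨ (i ∈ y ∧ i ∈ Γ) := by
  unfold mix
  rw [mem_union, mem_sdiff, mem_inter]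

omit [DecidableEq I] in
theorem av_comm (f : Finset I → Finset I → ℝ) :
    av (fun x => av (fun y => f x y)) = av (fun y => av (fun x => f x y)) := by
  unfold av
  rw [← sum_div, ← sum_div, sum_comm]

theorem av_mix (Γ : Finset I) (g : Finset I → ℝ) :
    av g = av (fun x => av (fun y => g (mix Γ x y))) := by
  have hinv : Function.Involutive
      (fun p : Finset I × Finset I => (mix Γ p.1 p.2, mix Γ p.2 p.1)) := by
    intro p
    refine Prod.ext ?_ ?_
    · ext i
      simp only [mem_mix]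
      tauto
    · ext i
      simp only [mem_mix]
      tauto
  have h1 : ∑ p : Finset I × Finset I, g (mix Γ p.1 p.2) = ∑ p : Finset I × Finset I, g p.1 :=
    Equiv.sum_comp hinv.toPerm (fun p : Finset I × Finset I => g p.1)
  rw [Fintype.sum_prod_type, Fintype.sum_prod_type] at h1
  unfold av
  rw [← sum_div, h1]
  simp only [sum_const, card_univ, Fintype.card_finset, nsmul_eq_mul, Nat.cast_pow, Nat.cast_ofNat]
  rw [← mul_sum, mul_div_cancel_left₀ _ (two_pow_pos (I := I)).ne']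

/-- The average over three subsets. -/
noncomputable def av3 (g : Finset I → Finset I → Finset I → ℝ) : ℝ :=
  av fun T => av fun z => av fun z' => g T z z'

omit [DecidableEq I] in
theorem av3_mono {g h : Finset I → Finset I → Finset I → ℝ}
    (hgh : ∀ T z z', g T z z' ≤ h T z z') : av3 g ≤ av3 h :=
  av_mono fun T => av_mono fun z => av_mono fun z' => hgh T z z'

omit [DecidableEq I] in
theorem av3_nonneg {g : Finset I → Finset I → Finset I → ℝ}
    (h : ∀ T z z', 0 ≤ g T z z') : 0 ≤ av3 g :=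
  av_nonneg fun T => av_nonneg fun z => av_nonneg fun z' => h T z z'

omit [DecidableEq I] in
theorem av3_le_one {g : Finset I → Finset I → Finset I → ℝ}
    (h : ∀ T z z', g T z z' ≤ 1) : av3 g ≤ 1 :=
  av_le_one fun T => av_le_one fun z => av_le_one fun z' => h T z z'

omit [DecidableEq I] in
theorem av3_sum {J : Type} (s : Finset J) (g : J → Finset I → Finset I → Finset I → ℝ) :
    av3 (fun T z z' => ∑ j ∈ s, g j T z z') = ∑ j ∈ s, av3 (g j) := by
  unfold av3
  simp only [av_sum]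

omit [DecidableEq I] in
theorem av3_lin (c d : ℝ) (g : Finset I → Finset I → Finset I → ℝ) :
    av3 (fun T z z' => c * g T z z' + d) = c * av3 g + d := by
  unfold av3
  have h1 : ∀ g : Finset I → ℝ, av (fun z => c * g z + d) = c * av g + d := by
    intro g
    rw [av_add, av_mul, av_const]
  simp only [h1]

theorem av3_mix (Γ : Finset I) (g : Finset I → Finset I → Finset I → ℝ) :
    av3 g = av3 (fun T₀ z₀ z₀' => av3 fun T z z' => g (mix Γ T₀ T) (mix Γ z₀ z) (mix Γ z₀' z')) := by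
  unfold av3
  rw [av_mix Γ]
  congr 1
  funext T₀
  have h1 : (fun T => av fun z => av fun z' => g (mix Γ T₀ T) z z') =
      fun T => av fun z₀ => av fun z₀' => av fun z => av fun z' =>
        g (mix Γ T₀ T) (mix Γ z₀ z) (mix Γ z₀' z') := by
    funext T
    rw [av_mix Γ]
    congr 1
    funext z₀
    have h2 : (fun z => av fun z' => g (mix Γ T₀ T) (mix Γ z₀ z) z') = fun z => av fun z₀' =>
        av fun z' => g (mix Γ T₀ T) (mix Γ z₀ z) (mix Γ z₀' z') := by
      funext z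
      rw [av_mix Γ]
    rw [h2, av_comm]
  rw [h1, av_comm]
  congr 1
  funext z₀
  rw [av_comm]

open Classical in
/-- The indicator. -/
noncomputable def ind (p : Prop) : ℝ := if p then 1 else 0

theorem ind_nonneg (p : Prop) : 0 ≤ ind p := by
  unfold ind
  split_ifs <;> norm_num

theorem ind_le_one (p : Prop) : ind p ≤ 1 := by
  unfold ind
  split_ifs <;> norm_num

theorem ind_and (p q : Prop) : ind (p ∧ q) = ind p * ind q := by
  unfold ind
  by_cases hp : p <;> by_cases hq : q <;> simp [hp, hq]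

/-- The weight of the pairs of disjoint sets with `S`. -/
noncomputable def NO (S : Finset I → Finset I → Prop) : ℝ :=
  av3 fun T z z' => ind (S (z ∩ T) (z' ∩ Tᶜ))

/-- The weight of the pairs of sets that meet in `i` only with `S`. -/
noncomputable def YES (S : Finset I → Finset I → Prop) (i : I) : ℝ :=
  av3 fun T z z' => ind (S (insert i (z ∩ T)) (insert i (z' ∩ Tᶜ)))

theorem YES_nonneg (S : Finset I → Finset I → Prop) (i : I) : 0 ≤ YES S i :=
  av3_nonneg fun _ _ _ => ind_nonneg _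

theorem NO_le_one (S : Finset I → Finset I → Prop) : NO S ≤ 1 :=
  av3_le_one fun _ _ _ => ind_le_one _

omit [Fintype I] in
theorem mix_inter (Γ z₀ z T₀ T : Finset I) :
    mix Γ z₀ z ∩ mix Γ T₀ T = mix Γ (z₀ ∩ T₀) (z ∩ T) := by
  ext i
  simp only [mem_mix, mem_inter]
  tauto

theorem mix_compl (Γ T₀ T : Finset I) : (mix Γ T₀ T)ᶜ = mix Γ T₀ᶜ Tᶜ := by
  ext i
  simp only [mem_mix, mem_compl]
  tauto

omit [Fintype I] in
theorem mix_insert {Γ x y : Finset I} {i : I} (hi : i ∈ Γ) :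
    insert i (mix Γ x y) = mix Γ x (insert i y) := by
  ext j
  simp only [mem_mix, mem_insert]
  by_cases h : j = i
  · subst h
    simp [hi]
  · simp [h]

omit [Fintype I] in
theorem mix_sdiff (Γ x y y' : Finset I) : mix Γ x y \ Γ = mix Γ x y' \ Γ := by
  ext j
  simp only [mem_mix, mem_sdiff]
  tauto

/-- The corruption bound for a set which is a rectangle in the directions of `Γ`. -/
theorem group_bound (Γ : Finset I) (S : Finset I → Finset I → Prop)
    (hrect : ∀ x y x' y', x \ Γ = x' \ Γ → y \ Γ = y' \ Γ → S x y → S x' y' → S x y') :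
    Γ.card * (13 / 20 * NO S - 16 * Real.exp (-(Γ.card / 320 : ℝ))) ≤ ∑ i ∈ Γ, YES S i := by
  classical
  -- the functions of the rectangle
  obtain ⟨a, ha⟩ : ∃ a : Finset I → Finset I → Finset I → ℝ, ∀ x₀ y₀ x, a x₀ y₀ x =
    ind (∃ y, S (mix Γ x₀ x) (mix Γ y₀ y)) := ⟨_, fun _ _ _ => rfl⟩
  obtain ⟨b, hb⟩ : ∃ b : Finset I → Finset I → Finset I → ℝ, ∀ x₀ y₀ y, b x₀ y₀ y =
    ind (∃ x, S (mix Γ x₀ x) (mix Γ y₀ y)) := ⟨_, fun _ _ _ => rfl⟩
  have hab : ∀ x₀ y₀ x y, ind (S (mix Γ x₀ x) (mix Γ y₀ y)) = a x₀ y₀ x * b x₀ y₀ y := by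
    intro x₀ y₀ x y
    rw [ha, hb, ← ind_and]
    congr 1
    apply propext
    constructor
    · intro h
      exact ⟨⟨y, h⟩, ⟨x, h⟩⟩
    · rintro ⟨⟨y', h1⟩, ⟨x', h2⟩⟩
      exact hrect _ _ _ _ (mix_sdiff _ _ _ _) (mix_sdiff _ _ _ _) h1 h2
  have hcor := fun x₀ y₀ => corruption (a x₀ y₀) (b x₀ y₀)
    (fun z => by rw [ha]; exact ind_nonneg _) (fun z => by rw [ha]; exact ind_le_one _)
    (fun z => by rw [hb]; exact ind_nonneg _) (fun z => by rw [hb]; exact ind_le_one _) Γ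
  have eNO : NO S = av3 fun T₀ z₀ z₀' => av (fun T => al (a (z₀ ∩ T₀) (z₀' ∩ T₀ᶜ)) T *
      al (b (z₀ ∩ T₀) (z₀' ∩ T₀ᶜ)) Tᶜ) := by
    unfold NO
    rw [av3_mix Γ]
    congr 1
    funext T₀ z₀ z₀'
    unfold av3
    congr 1
    funext T
    unfold al
    rw [mul_comm, ← av_mul]
    congr 1
    funext z
    rw [mul_comm, ← av_mul]
    congr 1
    funext z'
    beta_reduce
    rw [mix_compl, mix_inter, mix_inter, hab]
  have eYES : ∀ i ∈ Γ, YES S i = av3 fun T₀ z₀ z₀' =>
      av (fun T => A1 (a (z₀ ∩ T₀) (z₀' ∩ T₀ᶜ)) T i * A1 (b (z₀ ∩ T₀) (z₀' ∩ T₀ᶜ)) Tᶜ i) := by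
    intro i hi
    unfold YES
    rw [av3_mix Γ]
    congr 1
    funext T₀ z₀ z₀'
    unfold av3
    congr 1
    funext T
    unfold A1
    rw [mul_comm, ← av_mul]
    congr 1
    funext z
    rw [mul_comm, ← av_mul]
    congr 1
    funext z'
    beta_reduce
    rw [mix_compl, mix_inter, mix_inter, mix_insert hi, mix_insert hi, hab]
  rw [eNO, sum_congr rfl eYES, ← av3_sum]
  have h1 : Γ.card * (13 / 20 * (av3 fun T₀ z₀ z₀' => av (fun T =>
      al (a (z₀ ∩ T₀) (z₀' ∩ T₀ᶜ)) T * al (b (z₀ ∩ T₀) (z₀' ∩ T₀ᶜ)) Tᶜ)) -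
      16 * Real.exp (-(Γ.card / 320 : ℝ))) =
      av3 fun T₀ z₀ z₀' => (Γ.card * (13 / 20) : ℝ) * av (fun T =>
      al (a (z₀ ∩ T₀) (z₀' ∩ T₀ᶜ)) T * al (b (z₀ ∩ T₀) (z₀' ∩ T₀ᶜ)) Tᶜ) +
      (-(Γ.card * (16 * Real.exp (-(Γ.card / 320 : ℝ))))) := by
    rw [av3_lin]
    ring
  rw [h1]
  refine av3_mono fun T₀ z₀ z₀' => ?_
  refine le_trans (le_of_eq ?_) (hcor (z₀ ∩ T₀) (z₀' ∩ T₀ᶜ))
  ring

variable {Cl : Type} [Fintype Cl]

theorem ind_sum (c : Cl) (P : Cl → Prop) [DecidablePred P] :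
    ind (P c) = ∑ d ∈ univ.filter P, ind (c = d) := by
  classical
  unfold ind
  by_cases h : P c
  · rw [if_pos h, sum_ite_eq, if_pos (mem_filter.2 ⟨mem_univ _, h⟩)]
  · rw [if_neg h]
    symm
    apply sum_eq_zero
    intro d hd
    rw [if_neg]
    rintro rfl
    exact h (mem_filter.1 hd).2

/-- The corruption bound for a partition into classes. -/
theorem group_total (Γ : Finset I) (cl : Finset I → Finset I → Cl)
    (hrect : ∀ x y x' y', x \ Γ = x' \ Γ → y \ Γ = y' \ Γ → cl x y = cl x' y' → cl x y' = cl x y)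
    (P : Cl → Prop) :
    Γ.card * (13 / 20 * NO (fun x y => P (cl x y)) -
      16 * Fintype.card Cl * Real.exp (-(Γ.card / 320 : ℝ))) ≤
      ∑ i ∈ Γ, YES (fun x y => P (cl x y)) i := by
  classical
  have h1 : NO (fun x y => P (cl x y)) =
      ∑ d ∈ univ.filter P, NO (fun x y => cl x y = d) := by
    unfold NO
    rw [← av3_sum]
    congr 1
    funext T z z'
    exact ind_sum _ P
  have h2 : ∀ i, YES (fun x y => P (cl x y)) i =
      ∑ d ∈ univ.filter P, YES (fun x y => cl x y = d) i := by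
    intro i
    unfold YES
    rw [← av3_sum]
    congr 1
    funext T z z'
    exact ind_sum _ P
  rw [h1, sum_congr rfl fun i _ => h2 i, sum_comm]
  have h3 : ∀ d ∈ univ.filter P, (Γ.card : ℝ) * (13 / 20 * NO (fun x y => cl x y = d) -
      16 * Real.exp (-(Γ.card / 320 : ℝ))) ≤ ∑ i ∈ Γ, YES (fun x y => cl x y = d) i := by
    intro d _
    refine group_bound Γ _ ?_
    intro x y x' y' hx hy h h'
    rw [← h]
    exact hrect x y x' y' hx hy (h.trans h'.symm)
  refine le_trans ?_ (sum_le_sum h3)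
  rw [← mul_sum, sum_sub_distrib, ← mul_sum, sum_const, nsmul_eq_mul]
  refine mul_le_mul_of_nonneg_left ?_ (Nat.cast_nonneg _)
  have h4 : ((univ.filter P).card : ℝ) ≤ Fintype.card Cl := by
    exact_mod_cast card_le_univ _
  have h5 := Real.exp_pos (-(Γ.card / 320 : ℝ))
  nlinarith

/-- The corruption bound for many groups of coordinates. -/
theorem total_bound {G : Type} [DecidableEq G] (Gs : Finset G) (good : Finset I) (grp : I → G)
    (hgrp : ∀ i ∈ good, grp i ∈ Gs) (m₀ : ℕ) (cl : Finset I → Finset I → Cl)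
    (hrect : ∀ γ, ∀ x y x' y', x \ good.filter (fun i => grp i = γ) =
      x' \ good.filter (fun i => grp i = γ) → y \ good.filter (fun i => grp i = γ) =
      y' \ good.filter (fun i => grp i = γ) → cl x y = cl x' y' → cl x y' = cl x y)
    (P : Cl → Prop) :
    Fintype.card I * (13 / 20 * NO (fun x y => P (cl x y)) -
      16 * Fintype.card Cl * Real.exp (-(m₀ / 320 : ℝ))) - (goodᶜ.card + m₀ * Gs.card) ≤
      ∑ i, YES (fun x y => P (cl x y)) i := by
  classical
  obtain ⟨b, hb⟩ : ∃ b, b = 13 / 20 * NO (fun x y => P (cl x y)) -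
      16 * Fintype.card Cl * Real.exp (-(m₀ / 320 : ℝ)) := ⟨_, rfl⟩
  rw [← hb]
  have hb1 : b ≤ 1 := by
    have h1 := NO_le_one (fun x y => P (cl x y))
    have h2 : 0 ≤ 16 * (Fintype.card Cl : ℝ) * Real.exp (-(m₀ / 320 : ℝ)) := by positivity
    rw [hb]
    linarith
  obtain ⟨Y, hY⟩ : ∃ Y : I → ℝ, ∀ i, Y i = YES (fun x y => P (cl x y)) i := ⟨_, fun _ => rfl⟩
  have hY0 : ∀ i, 0 ≤ Y i := fun i => by rw [hY]; exact YES_nonneg _ _
  rw [← sum_congr rfl fun i _ => hY i]
  have h1 : ∀ γ ∈ Gs, (good.filter (fun i => grp i = γ)).card * b - m₀ ≤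
      ∑ i ∈ good.filter (fun i => grp i = γ), Y i := by
    intro γ _
    obtain ⟨Γ, hΓ⟩ : ∃ Γ, Γ = good.filter (fun i => grp i = γ) := ⟨_, rfl⟩
    rw [← hΓ]
    have hm0 : (0:ℝ) ≤ m₀ := Nat.cast_nonneg _
    rcases Nat.lt_or_ge Γ.card m₀ with h | h
    · have h2 : (Γ.card : ℝ) ≤ m₀ := by exact_mod_cast h.le
      have h3 : (Γ.card : ℝ) * b ≤ Γ.card * 1 := mul_le_mul_of_nonneg_left hb1 (Nat.cast_nonneg _)
      have h4 : 0 ≤ ∑ i ∈ Γ, Y i := sum_nonneg fun i _ => hY0 i
      linarith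
    · have h2 := group_total Γ cl (by rw [hΓ]; exact hrect γ) P
      rw [sum_congr rfl fun i _ => hY i]
      refine le_trans ?_ h2
      have h3 : Real.exp (-(Γ.card / 320 : ℝ)) ≤ Real.exp (-(m₀ / 320 : ℝ)) := by
        apply Real.exp_le_exp.2
        have : (m₀ : ℝ) ≤ Γ.card := by exact_mod_cast h
        linarith
      have h4 : b ≤ 13 / 20 * NO (fun x y => P (cl x y)) -
          16 * Fintype.card Cl * Real.exp (-(Γ.card / 320 : ℝ)) := by
        rw [hb]
        have : 16 * (Fintype.card Cl : ℝ) * Real.exp (-(Γ.card / 320 : ℝ)) ≤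
            16 * Fintype.card Cl * Real.exp (-(m₀ / 320 : ℝ)) :=
          mul_le_mul_of_nonneg_left h3 (by positivity)
        linarith
      have h5 := mul_le_mul_of_nonneg_left h4 (Nat.cast_nonneg (α := ℝ) Γ.card)
      linarith
  have h2 := sum_le_sum h1
  rw [sum_sub_distrib, ← sum_mul, sum_const, nsmul_eq_mul, ← Nat.cast_sum] at h2
  have h3 : ∑ γ ∈ Gs, (good.filter (fun i => grp i = γ)).card = good.card :=
    (card_eq_sum_card_fiberwise (fun i hi => hgrp i hi)).symm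
  have h4 : ∑ γ ∈ Gs, ∑ i ∈ good.filter (fun i => grp i = γ), Y i = ∑ i ∈ good, Y i :=
    sum_fiberwise_of_maps_to (fun i hi => hgrp i hi) Y
  have h5 : ∑ i ∈ good, Y i ≤ ∑ i, Y i :=
    sum_le_sum_of_subset_of_nonneg (subset_univ _) fun i _ _ => hY0 i
  rw [h3, h4] at h2
  have h6 : ((good.card : ℝ) + goodᶜ.card) = Fintype.card I := by
    have := card_add_card_compl good
    exact_mod_cast this
  have h7 : (goodᶜ.card : ℝ) * b ≤ goodᶜ.card * 1 :=
    mul_le_mul_of_nonneg_left hb1 (Nat.cast_nonneg _)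
  rw [← h6]
  nlinarith

end Run7.h156.CR
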