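import Mathlib

/-!
# Averages over subsets and the level one inequality
-/

set_option autoImplicit false

open Finset

namespace Run7.h156.CR

variable {I : Type} [Fintype I] [DecidableEq I]

/-- The average over all subsets. -/
noncomputable def av (g : Finset I → ℝ) : ℝ := (∑ z, g z) / 2 ^ Fintype.card I

omit [DecidableEq I] in
theorem two_pow_pos : (0 : ℝ) < 2 ^ Fintype.card I := by positivity

omit [DecidableEq I] in
theorem av_add (g h : Finset I → ℝ) : av (fun z => g z + h z) = av g + av h := by
  unfold av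
  rw [sum_add_distrib, add_div]

omit [DecidableEq I] in
theorem av_mul (c : ℝ) (g : Finset I → ℝ) : av (fun z => c * g z) = c * av g := by
  unfold av
  rw [← mul_sum, mul_div_assoc]

omit [DecidableEq I] in
theorem av_sum {J : Type} (s : Finset J) (g : J → Finset I → ℝ) :
    av (fun z => ∑ j ∈ s, g j z) = ∑ j ∈ s, av (g j) := by
  unfold av
  rw [sum_comm, sum_div]

omit [DecidableEq I] in
theorem av_mono {g h : Finset I → ℝ} (hgh : ∀ z, g z ≤ h z) : av g ≤ av h := by
  unfold av
  exact div_le_div_of_nonneg_right (sum_le_sum fun z _ => hgh z) two_pow_pos.le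

omit [DecidableEq I] in
theorem av_const (c : ℝ) : av (fun _ : Finset I => c) = c := by
  unfold av
  rw [sum_const, card_univ, Fintype.card_finset, nsmul_eq_mul, Nat.cast_pow, Nat.cast_ofNat,
    mul_div_cancel_left₀ c (two_pow_pos (I := I)).ne']

omit [DecidableEq I] in
theorem av_nonneg {g : Finset I → ℝ} (h : ∀ z, 0 ≤ g z) : 0 ≤ av g :=
  div_nonneg (sum_nonneg fun z _ => h z) two_pow_pos.le

omit [DecidableEq I] in
theorem av_le_one {g : Finset I → ℝ} (h : ∀ z, g z ≤ 1) : av g ≤ 1 :=
  (av_mono h).trans_eq (av_const 1)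

/-- The sign of the coordinate `i`. -/
def chi (i : I) (z : Finset I) : ℝ := if i ∈ z then -1 else 1

theorem av_exp (p : I → ℝ) :
    av (fun z => Real.exp (∑ i, p i * chi i z)) = ∏ i, Real.cosh (p i) := by
  unfold av
  have h1 : ∀ z : Finset I, Real.exp (∑ i, p i * chi i z) =
      (∏ i ∈ z, Real.exp (-p i)) * ∏ i ∈ univ \ z, Real.exp (p i) := by
    intro z
    rw [Real.exp_sum, ← prod_sdiff (subset_univ z), mul_comm]
    congr 1
    · refine prod_congr rfl fun i hi => ?_
      unfold chi
      rw [if_pos hi, mul_neg, mul_one]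
    · refine prod_congr rfl fun i hi => ?_
      unfold chi
      rw [if_neg (mem_sdiff.1 hi).2, mul_one]
  have h2 := prod_add (fun i : I => Real.exp (-p i)) (fun i => Real.exp (p i)) univ
  rw [powerset_univ] at h2
  rw [sum_congr rfl fun z _ => h1 z, ← h2, div_eq_iff (two_pow_pos (I := I)).ne']
  have h3 : ∀ i ∈ (univ : Finset I), Real.exp (-p i) + Real.exp (p i) = Real.cosh (p i) * 2 := by
    intro i _
    rw [Real.cosh_eq]
    ring
  rw [prod_congr rfl h3, prod_mul_distrib, prod_const, card_univ]

/-- **The level one inequality.** -/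
theorem level_one (f : Finset I → ℝ) (h0 : ∀ z, 0 ≤ f z) (h1 : ∀ z, f z ≤ 1) (hμ : 0 < av f) :
    ∑ i, (av (fun z => chi i z * f z)) ^ 2 ≤ 2 * (av f) ^ 2 * Real.log (1 / av f) := by
  obtain ⟨μ, hμd⟩ : ∃ μ, μ = av f := ⟨_, rfl⟩
  rw [← hμd] at hμ ⊢
  obtain ⟨p, hp⟩ : ∃ p : I → ℝ, ∀ i, p i = av (fun z => chi i z * f z) / μ := ⟨_, fun _ => rfl⟩
  obtain ⟨S, hS⟩ : ∃ S, S = ∑ i, p i ^ 2 := ⟨_, rfl⟩
  have hp' : ∀ i, av (fun z => chi i z * f z) = μ * p i := by
    intro i
    rw [hp]
    field_simp
  have e1 : ∑ i, (av (fun z => chi i z * f z)) ^ 2 = μ ^ 2 * S := by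
    rw [hS, mul_sum]
    refine sum_congr rfl fun i _ => ?_
    rw [hp', mul_pow]
  -- lower bound
  have l1 : μ ≤ av (fun z => f z * Real.exp (∑ i, p i * chi i z - S)) := by
    have h2 : av (fun z => f z + ((∑ i, p i * (chi i z * f z)) + -S * f z)) = μ := by
      rw [av_add, av_add, av_sum, av_mul, ← hμd]
      have : ∀ i ∈ (univ : Finset I), av (fun z => p i * (chi i z * f z)) = μ * p i ^ 2 := by
        intro i _
        rw [av_mul, hp']
        ring
      rw [sum_congr rfl this, ← mul_sum, ← hS]
      ring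
    rw [← h2]
    refine av_mono fun z => ?_
    have h3 := Real.add_one_le_exp (∑ i, p i * chi i z - S)
    have h4 := mul_le_mul_of_nonneg_left h3 (h0 z)
    refine le_trans (le_of_eq ?_) h4
    have h5 : ∑ i, p i * (chi i z * f z) = f z * ∑ i, p i * chi i z := by
      rw [mul_sum]
      exact sum_congr rfl fun i _ => by ring
    rw [h5]
    ring
  -- upper bound
  have u1 : av (fun z => f z * Real.exp (∑ i, p i * chi i z - S)) ≤ Real.exp (-(S / 2)) := by
    calc av (fun z => f z * Real.exp (∑ i, p i * chi i z - S))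
        ≤ av (fun z => Real.exp (-S) * Real.exp (∑ i, p i * chi i z)) := by
          refine av_mono fun z => ?_
          rw [← Real.exp_add, show -S + ∑ i, p i * chi i z = ∑ i, p i * chi i z - S by ring]
          exact mul_le_of_le_one_left (Real.exp_pos _).le (h1 z)
      _ = Real.exp (-S) * ∏ i, Real.cosh (p i) := by rw [av_mul, av_exp]
      _ ≤ Real.exp (-S) * Real.exp (S / 2) := by
          refine mul_le_mul_of_nonneg_left ?_ (Real.exp_pos _).le
          rw [hS, sum_div, Real.exp_sum]
          exact prod_le_prod (fun i _ => (Real.cosh_pos _).le)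
            (fun i _ => Real.cosh_le_exp_half_sq (p i))
      _ = Real.exp (-(S / 2)) := by
          rw [← Real.exp_add]
          congr 1
          ring
  have h2 : Real.log μ ≤ -(S / 2) := by
    rw [Real.log_le_iff_le_exp hμ]
    exact l1.trans u1
  rw [e1, one_div, Real.log_inv]
  nlinarith [sq_nonneg μ]

/-- Splitting the average by a coordinate. -/
theorem av_split (i : I) (g : Finset I → ℝ) :
    av g = (av (fun z => g (z.erase i)) + av (fun z => g (insert i z))) / 2 := by
  obtain ⟨t, ht⟩ : ∃ t : Finset I → Finset I, ∀ z, t z = if i ∈ z then z.erase i else insert i z :=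
    ⟨_, fun _ => rfl⟩
  have hinv : Function.Involutive t := by
    intro z
    rw [ht (t z), ht z]
    by_cases h : i ∈ z
    · rw [if_pos h, if_neg (notMem_erase i z), insert_erase h]
    · rw [if_neg h, if_pos (mem_insert_self i z), erase_insert h]
  have h1 : ∑ z, g (t z) = ∑ z, g z := Equiv.sum_comp hinv.toPerm g
  have h2 : ∀ z, g (z.erase i) + g (insert i z) = g z + g (t z) := by
    intro z
    rw [ht]
    by_cases h : i ∈ z
    · rw [if_pos h, insert_eq_of_mem h, add_comm]
    · rw [if_neg h, erase_eq_of_notMem h]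
  rw [← av_add]
  unfold av
  rw [sum_congr rfl fun z _ => h2 z, sum_add_distrib, h1]
  ring

end Run7.h156.CR
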