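import Pool.Agent.Run7.h156.CR.Plc
import Pool.Agent.Run7.h156.CR.Circ

/-!
# The bound for one circuit and for random circuits
-/

set_option autoImplicit false

open Finset

namespace Run7.h156.CR

variable {I : Type} [Fintype I] [DecidableEq I] [AddCommGroup I] {h q n : ℕ}
  (φ : (((Bool × Fin h) × I) ⊕ Fin q) ↪ Fin n)

/-- The error term. -/
noncomputable def err (m h κ b₀ R w r' lam m₀ L : ℕ) : ℝ :=
  16 * (L : ℝ) ^ ((κ + 1) * b₀) * Real.exp (-(m₀ / 320 : ℝ)) + 2 * h ^ 2 * (κ * b₀) / (m : ℝ) ^ 2 +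
    2 * h ^ 2 * (R / (r' + 1 : ℝ)) / (m : ℝ) ^ 2 + h ^ 4 * (R * w) / (m : ℝ) ^ 4 +
    (1 - 1 / 4 ^ (h ^ 2 * r')) ^ lam + m₀ * lam / m

theorem err_nonneg (m h κ b₀ R w r' lam m₀ L : ℕ) : 0 ≤ err m h κ b₀ R w r' lam m₀ L := by
  have hq0 : (0:ℝ) ≤ (1 - 1 / 4 ^ (h ^ 2 * r')) ^ lam := by
    apply pow_nonneg
    rw [sub_nonneg, div_le_one (by positivity)]
    exact one_le_pow₀ (by norm_num)
  unfold err
  positivity

theorem one_circuit {O Z : Type} [Fintype O] [Fintype Z] (C : WordCircuit (Sym2 (Fin n)) O Z)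
    {κ θ L R w s₀ b₀ : ℕ} (hκ : C.FanIn κ) (hθ : C.TreewidthLE θ) (hL : Fintype.card Z ≤ L)
    (hL1 : 1 ≤ L) (hR : C.reads ≤ R) (hs₀ : ∀ s, w * s ≤ 8 * R + w → s ≤ s₀)
    (hb₀ : b₀ = s₀ * (2 * (θ + 1)) + Fintype.card O) (r' lam m₀ : ℕ) (P : (O → Bool) → Prop)
    (hm1 : 1 ≤ Fintype.card I) :
    13 / 20 * ((∑ π, NO (fun x y => P (C.output (bits (Gr φ π x y))))) /
      (Fintype.card I : ℝ) ^ (2 * h)) - err (Fintype.card I) h κ b₀ R w r' lam m₀ L ≤
      (∑ π, ∑ i, YES (fun x y => P (C.output (bits (Gr φ π x y)))) i) /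
        (Fintype.card I : ℝ) ^ (2 * h + 1) := by
  classical
  obtain ⟨s, T, D, Cl, _, cl, h1, h2, h3, h4, h5, h6, h7⟩ := C.divide hκ hθ hL hL1 w
  have hs : s ≤ s₀ := hs₀ s (h1.trans (by omega))
  have hb : s * (2 * (θ + 1)) + Fintype.card O ≤ b₀ := by
    rw [hb₀]
    exact Nat.add_le_add_right (Nat.mul_le_mul_right _ hs) _
  have hDc : D.card ≤ κ * b₀ := h2.trans (Nat.mul_le_mul_left _ hb)
  have hClc : Fintype.card Cl ≤ L ^ ((κ + 1) * b₀) :=
    h3.trans (Nat.pow_le_pow_right hL1 (Nat.mul_le_mul_left _ hb))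
  obtain ⟨Gs, good, grp, g1, g2, g3⟩ := placements φ T D R w r' lam
    (fun Y => (h4 Y).trans hR) h5
  obtain ⟨P', hP'⟩ : ∃ P' : Cl → Prop, ∀ c, P' c ↔ ∃ x, cl x = c ∧ P (C.output x) :=
    ⟨_, fun _ => Iff.rfl⟩
  have hPP : ∀ x, P' (cl x) = P (C.output x) := by
    intro x
    apply propext
    rw [hP']
    constructor
    · rintro ⟨x', h8, h9⟩
      rwa [← h6 _ _ h8]
    · intro h8
      exact ⟨x, rfl, h8⟩
  obtain ⟨m, hm⟩ : ∃ m, m = Fintype.card I := ⟨_, rfl⟩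
  obtain ⟨NN, hNN⟩ : ∃ NN : (Bool × Fin h → I) → ℝ, ∀ π, NN π =
    NO (fun x y => P (C.output (bits (Gr φ π x y)))) := ⟨_, fun _ => rfl⟩
  obtain ⟨YY, hYY⟩ : ∃ YY : (Bool × Fin h → I) → ℝ, ∀ π, YY π =
    ∑ i, YES (fun x y => P (C.output (bits (Gr φ π x y)))) i := ⟨_, fun _ => rfl⟩
  have key : ∀ π : Bool × Fin h → I, (m : ℝ) * (13 / 20 * NN π -
      16 * (L : ℝ) ^ ((κ + 1) * b₀) * Real.exp (-(m₀ / 320 : ℝ))) -
      ((good π)ᶜ.card + m₀ * lam) ≤ YY π := by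
    intro π
    have h8 := total_bound Gs (good π) (grp π) (fun i hi => (g2 π i hi).1) m₀
      (fun x y => cl (bits (Gr φ π x y))) (by
        intro γ x y x' y' hx hy hc
        obtain ⟨Γ, hΓ⟩ : ∃ Γ, Γ = (good π).filter (fun i => grp π i = γ) := ⟨_, rfl⟩
        rw [← hΓ] at hx hy
        have hΓm : ∀ i ∈ Γ, i ∈ good π ∧ grp π i = γ := by
          intro i hi
          rw [hΓ] at hi
          exact mem_filter.1 hi
        have hout : ∀ {u u' : Finset I} {i : I}, u \ Γ = u' \ Γ → i ∉ Γ → (i ∈ u ↔ i ∈ u') := by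
          intro u u' i huu hi
          have h9 : i ∈ u \ Γ ↔ i ∈ u' \ Γ := by rw [huu]
          rw [mem_sdiff, mem_sdiff] at h9
          tauto
        refine h7 γ {e | ∃ i ∈ Γ, ∃ j j', j ≠ j' ∧ e = vr φ (plc π i) false j j'}
          {e | ∃ i ∈ Γ, ∃ j j', j ≠ j' ∧ e = vr φ (plc π i) true j j'}
          (bits (Gr φ π x y)) (bits (Gr φ π x' y')) (bits (Gr φ π x y')) ?_ ?_ ?_ hc ?_ ?_
        · rintro e ⟨i, hi, j, j', hj, rfl⟩
          have h9 := ((g2 π i (hΓm i hi).1).2 j j' hj).1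
          rw [(hΓm i hi).2] at h9
          exact h9
        · rintro e ⟨i, hi, j, j', hj, rfl⟩
          have h9 := ((g2 π i (hΓm i hi).1).2 j j' hj).2
          rw [(hΓm i hi).2] at h9
          exact h9
        · intro e heA heE
          refine bits_eq φ π (fun i j j' hj he => hout hx fun hi => heA ⟨i, hi, j, j', hj, he⟩)
            (fun i j j' hj he => hout hy fun hi => heE ⟨i, hi, j, j', hj, he⟩)
        · rintro e ⟨i, hi, j, j', hj, rfl⟩
          refine bits_eq φ π (fun _ _ _ _ _ => Iff.rfl) (fun i' l l' _ he => ?_)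
          exact absurd he (vr_ne φ _ _ _ _ _ _)
        · intro e heA
          exact bits_eq φ π (fun i j j' hj he => hout hx fun hi => heA ⟨i, hi, j, j', hj, he⟩)
            (fun _ _ _ _ _ => Iff.rfl)) P'
    simp only [hPP] at h8
    rw [← hNN, ← hYY, ← hm] at h8
    refine le_trans ?_ h8
    have e1 : (Fintype.card Cl : ℝ) ≤ (L : ℝ) ^ ((κ + 1) * b₀) := by exact_mod_cast hClc
    have e2 : (Gs.card : ℝ) ≤ lam := by exact_mod_cast g1
    have e3 : (0:ℝ) ≤ m := Nat.cast_nonneg _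
    have e4 : (0:ℝ) ≤ m₀ := Nat.cast_nonneg _
    have e5 := Real.exp_pos (-(m₀ / 320 : ℝ))
    have e6 : 16 * (Fintype.card Cl : ℝ) * Real.exp (-(m₀ / 320 : ℝ)) ≤
        16 * (L : ℝ) ^ ((κ + 1) * b₀) * Real.exp (-(m₀ / 320 : ℝ)) := by gcongr
    have e7 := mul_le_mul_of_nonneg_left e2 e4
    have e8 : (m : ℝ) * (13 / 20 * NN π -
        16 * (L : ℝ) ^ ((κ + 1) * b₀) * Real.exp (-(m₀ / 320 : ℝ))) ≤
        m * (13 / 20 * NN π - 16 * (Fintype.card Cl : ℝ) * Real.exp (-(m₀ / 320 : ℝ))) :=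
      mul_le_mul_of_nonneg_left (by linarith) e3
    linarith
  have hsum := sum_le_sum (s := univ) fun π _ => key π
  have hcP : ((univ : Finset (Bool × Fin h → I)).card : ℝ) = (m : ℝ) ^ (2 * h) := by
    rw [card_univ, Fintype.card_fun, Fintype.card_prod, Fintype.card_bool, Fintype.card_fin, ← hm]
    push_cast
    rfl
  rw [sum_sub_distrib, ← mul_sum, sum_sub_distrib, ← mul_sum, sum_const, nsmul_eq_mul,
    sum_add_distrib, sum_const, nsmul_eq_mul, hcP] at hsum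
  rw [← hm] at g3 hm1
  rw [← hm, sum_congr rfl fun π _ => (hNN π).symm, sum_congr rfl fun π _ => (hYY π).symm]
  have hm0 : (0:ℝ) < m := by exact_mod_cast hm1
  have hD' : (D.card : ℝ) ≤ κ * b₀ := by exact_mod_cast hDc
  -- the bound for the bad blocks
  have g4 : (∑ π, ((good π)ᶜ.card : ℝ)) ≤ (m : ℝ) ^ (2 * h + 1) *
      (2 * h ^ 2 * (κ * b₀) / (m : ℝ) ^ 2 + 2 * h ^ 2 * (R / (r' + 1 : ℝ)) / (m : ℝ) ^ 2 +
        h ^ 4 * (R * w) / (m : ℝ) ^ 4 + (1 - 1 / 4 ^ (h ^ 2 * r')) ^ lam) := by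
    have e1 : (∑ π, ((good π)ᶜ.card : ℝ)) * (m : ℝ) ^ 3 ≤ (m : ℝ) ^ (2 * h) *
        (2 * h ^ 2 * (κ * b₀) * (m : ℝ) ^ 2 + 2 * h ^ 2 * (R / (r' + 1 : ℝ)) * (m : ℝ) ^ 2 +
        h ^ 4 * (R * w) + (1 - 1 / 4 ^ (h ^ 2 * r')) ^ lam * (m : ℝ) ^ 4) := by
      refine g3.trans (mul_le_mul_of_nonneg_left ?_ (by positivity))
      gcongr
    have e2 : (0:ℝ) < (m:ℝ) ^ 3 := by positivity
    rw [← mul_le_mul_iff_left₀ e2]
    refine e1.trans (le_of_eq ?_)
    field_simp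
    ring
  have hpos : (0:ℝ) < (m : ℝ) ^ (2 * h + 1) := by positivity
  rw [le_div_iff₀ hpos]
  refine le_trans (le_of_eq ?_) (le_trans (sub_le_sub_left (add_le_add_left g4 _) _) hsum)
  unfold err
  rw [pow_succ]
  field_simp
  ring

include φ in
/-- **Random circuits.** -/
theorem random_circuits [Nonempty (((Bool × Fin h) × I) ⊕ Fin q)]
    {O Z Ω : Type} [Fintype O] [Fintype Z] [Fintype Ω]
    (μ : Ω → ℝ) (hμ0 : ∀ ω, 0 ≤ μ ω) (hμ1 : ∑ ω, μ ω = 1)
    (C : Ω → WordCircuit (Sym2 (Fin n)) O Z) (ans : Ω → (O → Bool) → Bool)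
    {κ θ L R w s₀ b₀ : ℕ} (hκ : ∀ ω, (C ω).FanIn κ) (hθ : ∀ ω, (C ω).TreewidthLE θ)
    (hL : Fintype.card Z ≤ L) (hL1 : 1 ≤ L) (hR0 : 1 ≤ R)
    (hR : 40 * ∑ ω, μ ω * (C ω).reads ≤ R) (hs₀ : ∀ s, w * s ≤ 8 * R + w → s ≤ s₀)
    (hb₀ : b₀ = s₀ * (2 * (θ + 1)) + Fintype.card O) (r' lam m₀ : ℕ)
    (hm1 : 1 ≤ Fintype.card I)
    (hyes : ∀ G : SimpleGraph (Fin n), ¬ G.CliqueFree (2 * h + q) →
      ∑ ω, μ ω * ind (ans ω ((C ω).output (bits G)) = false) ≤ 1 / 3)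
    (hno : ∀ G : SimpleGraph (Fin n), G.CliqueFree (h + q + 2) →
      2 / 3 ≤ ∑ ω, μ ω * ind (ans ω ((C ω).output (bits G)) = false)) :
    67 / 800 ≤ err (Fintype.card I) h κ b₀ R w r' lam m₀ L := by
  classical
  obtain ⟨m, hm⟩ : ∃ m, m = Fintype.card I := ⟨_, rfl⟩
  obtain ⟨NB, hNB⟩ : ∃ NB : Ω → ℝ, ∀ ω, NB ω = (∑ π, NO (fun x y =>
    ans ω ((C ω).output (bits (Gr φ π x y))) = false)) / (Fintype.card I : ℝ) ^ (2 * h) :=
    ⟨_, fun _ => rfl⟩
  obtain ⟨YB, hYB⟩ : ∃ YB : Ω → ℝ, ∀ ω, YB ω = (∑ π, ∑ i, YES (fun x y =>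
    ans ω ((C ω).output (bits (Gr φ π x y))) = false) i) / (Fintype.card I : ℝ) ^ (2 * h + 1) :=
    ⟨_, fun _ => rfl⟩
  obtain ⟨E, hE⟩ : ∃ E, E = err (Fintype.card I) h κ b₀ R w r' lam m₀ L := ⟨_, rfl⟩
  have hE0 : 0 ≤ E := by rw [hE]; exact err_nonneg _ _ _ _ _ _ _ _ _ _
  rw [← hE]
  have hm0 : (0:ℝ) < (Fintype.card I : ℝ) := by exact_mod_cast hm1
  have hcP : ((univ : Finset (Bool × Fin h → I)).card : ℝ) = (Fintype.card I : ℝ) ^ (2 * h) := by
    rw [card_univ, Fintype.card_fun, Fintype.card_prod, Fintype.card_bool, Fintype.card_fin]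
    push_cast
    rfl
  have hgood : ∀ ω, 13 / 20 * NB ω - E - 13 / 20 * ind (R < (C ω).reads) ≤ YB ω := by
    intro ω
    by_cases hω : R < (C ω).reads
    · have e1 : ind (R < (C ω).reads) = 1 := by unfold ind; rw [if_pos hω]
      have e2 : NB ω ≤ 1 := by
        rw [hNB, div_le_one (by positivity), ← hcP, ← nsmul_one]
        exact sum_le_card_nsmul _ _ _ fun π _ => NO_le_one _
      have e3 : 0 ≤ YB ω := by
        rw [hYB]
        exact div_nonneg (sum_nonneg fun π _ => sum_nonneg fun i _ => YES_nonneg _ _) (by positivity)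
      rw [e1]
      linarith
    · have e1 : ind (R < (C ω).reads) = 0 := by unfold ind; rw [if_neg hω]
      have e2 := one_circuit φ (C ω) (hκ ω) (hθ ω) hL hL1 (not_lt.1 hω) hs₀ hb₀ r' lam m₀
        (fun o => ans ω o = false) hm1
      rw [← hNB, ← hYB, ← hE] at e2
      rw [e1]
      linarith
  have hsum := sum_le_sum (s := univ) fun ω _ => mul_le_mul_of_nonneg_left (hgood ω) (hμ0 ω)
  -- the probability of many reads
  have hmark : ∑ ω, μ ω * ind (R < (C ω).reads) ≤ 1 / 40 := by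
    have hR0' : (0:ℝ) < R := by exact_mod_cast hR0
    have e1 : ∑ ω, μ ω * ind (R < (C ω).reads) ≤ (∑ ω, μ ω * (C ω).reads) / R := by
      rw [le_div_iff₀ hR0', sum_mul]
      refine sum_le_sum fun ω _ => ?_
      unfold ind
      split_ifs with hω
      · rw [mul_one]
        exact mul_le_mul_of_nonneg_left (by exact_mod_cast hω.le) (hμ0 ω)
      · rw [mul_zero, zero_mul]
        exact mul_nonneg (hμ0 ω) (Nat.cast_nonneg _)
    refine e1.trans ?_
    rw [div_le_div_iff₀ hR0' (by norm_num)]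
    linarith
  -- the averages
  have hN : 2 / 3 ≤ ∑ ω, μ ω * NB ω := by
    have e1 : ∑ ω, μ ω * NB ω = (∑ π : Bool × Fin h → I, av3 fun T z z' => ∑ ω, μ ω *
        ind (ans ω ((C ω).output (bits (Gr φ π (z ∩ T) (z' ∩ Tᶜ)))) = false)) /
        (Fintype.card I : ℝ) ^ (2 * h) := by
      rw [eq_div_iff (by positivity), sum_mul]
      have e2 : ∀ ω, μ ω * NB ω * (Fintype.card I : ℝ) ^ (2 * h) = ∑ π : Bool × Fin h → I,
          av3 fun T z z' => μ ω *
          ind (ans ω ((C ω).output (bits (Gr φ π (z ∩ T) (z' ∩ Tᶜ)))) = false) := by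
        intro ω
        rw [hNB, mul_assoc, div_mul_cancel₀ _ (by positivity), mul_sum]
        refine sum_congr rfl fun π _ => ?_
        unfold NO
        have := av3_lin (μ ω) 0 (fun T z z' =>
          ind (ans ω ((C ω).output (bits (Gr φ π (z ∩ T) (z' ∩ Tᶜ)))) = false))
        simp only [add_zero] at this
        exact this.symm
      rw [sum_congr rfl fun ω _ => e2 ω, sum_comm]
      refine sum_congr rfl fun π _ => ?_
      rw [av3_sum]
    rw [e1, le_div_iff₀ (by positivity), ← hcP, mul_comm, ← nsmul_eq_mul]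
    refine card_nsmul_le_sum _ _ _ fun π _ => ?_
    have e3 : av3 (fun _ _ _ : Finset I => (2 / 3 : ℝ)) = 2 / 3 := by
      unfold av3
      simp only [av_const]
    rw [← e3]
    refine av3_mono fun T z z' => hno _ (gr_free φ π ?_)
    rw [Finset.disjoint_left]
    intro i hi hi'
    exact (mem_compl.1 (mem_inter.1 hi').2) (mem_inter.1 hi).2
  have hY : ∑ ω, μ ω * YB ω ≤ 1 / 3 := by
    have e1 : ∑ ω, μ ω * YB ω = (∑ π : Bool × Fin h → I, ∑ i, av3 fun T z z' => ∑ ω, μ ω *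
        ind (ans ω ((C ω).output (bits (Gr φ π (insert i (z ∩ T)) (insert i (z' ∩ Tᶜ))))) = false)) /
        (Fintype.card I : ℝ) ^ (2 * h + 1) := by
      rw [eq_div_iff (by positivity), sum_mul]
      have e2 : ∀ ω, μ ω * YB ω * (Fintype.card I : ℝ) ^ (2 * h + 1) = ∑ π : Bool × Fin h → I,
          ∑ i, av3 fun T z z' => μ ω * ind (ans ω ((C ω).output
            (bits (Gr φ π (insert i (z ∩ T)) (insert i (z' ∩ Tᶜ))))) = false) := by
        intro ω
        rw [hYB, mul_assoc, div_mul_cancel₀ _ (by positivity), mul_sum]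
        refine sum_congr rfl fun π _ => ?_
        rw [mul_sum]
        refine sum_congr rfl fun i _ => ?_
        unfold YES
        have := av3_lin (μ ω) 0 (fun T z z' => ind (ans ω ((C ω).output
            (bits (Gr φ π (insert i (z ∩ T)) (insert i (z' ∩ Tᶜ))))) = false))
        simp only [add_zero] at this
        exact this.symm
      rw [sum_congr rfl fun ω _ => e2 ω, sum_comm]
      refine sum_congr rfl fun π _ => ?_
      rw [sum_comm]
      refine sum_congr rfl fun i _ => ?_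
      rw [av3_sum]
    rw [e1, div_le_iff₀ (by positivity), pow_succ, ← hcP]
    have e4 : ∀ π : Bool × Fin h → I, (∑ i, av3 fun T z z' => ∑ ω, μ ω *
        ind (ans ω ((C ω).output (bits (Gr φ π (insert i (z ∩ T)) (insert i (z' ∩ Tᶜ))))) = false)) ≤
        Fintype.card I * (1 / 3 : ℝ) := by
      intro π
      rw [← nsmul_eq_mul, ← card_univ]
      refine sum_le_card_nsmul _ _ _ fun i _ => ?_
      have e3 : av3 (fun _ _ _ : Finset I => (1 / 3 : ℝ)) = 1 / 3 := by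
        unfold av3
        simp only [av_const]
      rw [← e3]
      exact av3_mono fun T z z' => hyes _ (gr_clique φ π (mem_insert_self i _) (mem_insert_self i _))
    refine (sum_le_card_nsmul _ _ _ fun π _ => e4 π).trans (le_of_eq ?_)
    rw [nsmul_eq_mul]
    ring
  have e5 : ∑ ω, μ ω * (13 / 20 * NB ω - E - 13 / 20 * ind (R < (C ω).reads)) =
      13 / 20 * ∑ ω, μ ω * NB ω - E * ∑ ω, μ ω - 13 / 20 * ∑ ω, μ ω * ind (R < (C ω).reads) := by
    rw [mul_sum, mul_sum, mul_sum, ← sum_sub_distrib, ← sum_sub_distrib]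
    exact sum_congr rfl fun ω _ => by ring
  rw [e5, hμ1] at hsum
  linarith

end Run7.h156.CR
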