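import Pool.Agent.Run7.h156.CR.Group
import Mathlib.Combinatorics.SimpleGraph.Clique

/-!
# Graphs from two sets: a large clique for each common element
-/

set_option autoImplicit false

open Finset

namespace Run7.h156.CR

open Classical in
/-- The adjacency bits of a graph: one bit for each unordered pair of vertices. -/
noncomputable def bits {n : ℕ} (G : SimpleGraph (Fin n)) : Sym2 (Fin n) → Bool :=
  fun e => decide (e ∈ G.edgeSet)

/-- Many sets are separated by one set of parts. -/
theorem sep_exists {α : Type} {s : ℕ} (X : Finset α) (Te Tf : α → Finset (Fin s)) (r : ℕ)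
    (h1 : ∀ u ∈ X, (Te u).card ≤ r) (h2 : ∀ u ∈ X, (Tf u).card ≤ r)
    (h3 : ∀ u ∈ X, Disjoint (Te u) (Tf u)) :
    ∃ J : Finset (Fin s), X.card ≤ 4 ^ r * (X.filter fun u => Te u ⊆ J ∧ Disjoint (Tf u) J).card := by
  classical
  by_contra hcon
  push Not at hcon
  have h4 : ∀ u ∈ X, 2 ^ s ≤ 4 ^ r *
      (univ.filter fun J : Finset (Fin s) => Te u ⊆ J ∧ Disjoint (Tf u) J).card := by
    intro u hu
    have h5 : 2 ^ (s - (Te u).card - (Tf u).card) ≤
        (univ.filter fun J : Finset (Fin s) => Te u ⊆ J ∧ Disjoint (Tf u) J).card := by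
      have h6 : ((Te u ∪ Tf u)ᶜ.powerset).card ≤
          (univ.filter fun J : Finset (Fin s) => Te u ⊆ J ∧ Disjoint (Tf u) J).card := by
        apply Finset.card_le_card_of_injOn (fun K => K ∪ Te u)
        · intro K hK
          rw [Finset.mem_coe, mem_powerset] at hK
          rw [Finset.mem_coe, mem_filter]
          refine ⟨mem_univ _, subset_union_right, ?_⟩
          rw [Finset.disjoint_left]
          intro j hj hj2
          rcases mem_union.1 hj2 with h | h
          · have := hK h
            rw [mem_compl, mem_union] at this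
            exact this (Or.inr hj)
          · exact Finset.disjoint_left.1 (h3 u hu) h hj
        · intro K hK K' hK' hKK
          rw [Finset.mem_coe, mem_powerset] at hK hK'
          ext j
          have h7 : j ∈ K ∪ Te u ↔ j ∈ K' ∪ Te u := by
            have : K ∪ Te u = K' ∪ Te u := hKK
            rw [this]
          constructor
          · intro hj
            rcases mem_union.1 (h7.1 (mem_union_left _ hj)) with h | h
            · exact h
            · have := hK hj
              rw [mem_compl, mem_union] at this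
              exact absurd (Or.inl h) this
          · intro hj
            rcases mem_union.1 (h7.2 (mem_union_left _ hj)) with h | h
            · exact h
            · have := hK' hj
              rw [mem_compl, mem_union] at this
              exact absurd (Or.inl h) this
      rw [card_powerset, card_compl, Fintype.card_fin, card_union_of_disjoint (h3 u hu),
        ← Nat.sub_sub] at h6
      exact h6
    have h7 := h1 _ hu
    have h8 := h2 _ hu
    calc 2 ^ s ≤ 2 ^ (2 * r + (s - (Te u).card - (Tf u).card)) :=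
          Nat.pow_le_pow_right (by norm_num) (by omega)
      _ = 4 ^ r * 2 ^ (s - (Te u).card - (Tf u).card) := by
          rw [pow_add, pow_mul]
          norm_num
      _ ≤ _ := Nat.mul_le_mul_left _ h5
  have h9 : ∑ u ∈ X, (univ.filter fun J : Finset (Fin s) => Te u ⊆ J ∧ Disjoint (Tf u) J).card =
      ∑ J : Finset (Fin s), (X.filter fun u => Te u ⊆ J ∧ Disjoint (Tf u) J).card := by
    simp only [Finset.card_filter]
    rw [Finset.sum_comm]
  have h11 : X.card * 2 ^ s ≤ 4 ^ r * ∑ u ∈ X, (univ.filter fun J : Finset (Fin s) =>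
      Te u ⊆ J ∧ Disjoint (Tf u) J).card := by
    rw [Finset.mul_sum, ← smul_eq_mul, ← Finset.sum_const]
    exact Finset.sum_le_sum h4
  have h12 : 4 ^ r * ∑ J : Finset (Fin s), (X.filter fun u => Te u ⊆ J ∧ Disjoint (Tf u) J).card <
      X.card * 2 ^ s := by
    rw [Finset.mul_sum]
    calc _ < ∑ _J : Finset (Fin s), X.card :=
          Finset.sum_lt_sum_of_nonempty univ_nonempty (fun J _ => hcon J)
      _ = _ := by
          rw [Finset.sum_const, card_univ, Fintype.card_finset, Fintype.card_fin, smul_eq_mul,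
            mul_comm]
  rw [h9] at h11
  omega

/-- A family of sets of parts which separates almost all pairs. -/
theorem sep_family {α : Type} {s : ℕ} (X : Finset α) (Te Tf : α → Finset (Fin s)) (r : ℕ)
    (h1 : ∀ u ∈ X, (Te u).card ≤ r) (h2 : ∀ u ∈ X, (Tf u).card ≤ r)
    (h3 : ∀ u ∈ X, Disjoint (Te u) (Tf u)) (lam : ℕ) :
    ∃ Js : Finset (Finset (Fin s)), Js.card ≤ lam ∧
      ((X.filter fun u => ¬ ∃ J ∈ Js, Te u ⊆ J ∧ Disjoint (Tf u) J).card : ℝ) ≤
        (1 - 1 / 4 ^ r) ^ lam * X.card := by
  classical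
  induction lam with
  | zero =>
    refine ⟨∅, by simp, ?_⟩
    simp
  | succ lam ih =>
    obtain ⟨Js, hJ1, hJ2⟩ := ih
    obtain ⟨Y, hY⟩ : ∃ Y, Y = X.filter fun u => ¬ ∃ J ∈ Js, Te u ⊆ J ∧ Disjoint (Tf u) J := ⟨_, rfl⟩
    rw [← hY] at hJ2
    have hYX : Y ⊆ X := by rw [hY]; exact filter_subset _ _
    obtain ⟨J, hJ⟩ := sep_exists Y Te Tf r (fun u hu => h1 u (hYX hu)) (fun u hu => h2 u (hYX hu))
      (fun u hu => h3 u (hYX hu))
    refine ⟨insert J Js, (card_insert_le _ _).trans (Nat.add_le_add_right hJ1 1), ?_⟩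
    have h4 : (X.filter fun u => ¬ ∃ K ∈ insert J Js, Te u ⊆ K ∧ Disjoint (Tf u) K) ⊆
        Y.filter fun u => ¬ (Te u ⊆ J ∧ Disjoint (Tf u) J) := by
      intro u hu
      rw [mem_filter] at hu
      rw [mem_filter, hY, mem_filter]
      refine ⟨⟨hu.1, fun ⟨K, hK, h⟩ => hu.2 ⟨K, mem_insert_of_mem hK, h⟩⟩, fun h =>
        hu.2 ⟨J, mem_insert_self _ _, h⟩⟩
    have h5 := card_le_card h4
    have h6 := card_filter_add_card_filter_not (s := Y) (fun u => Te u ⊆ J ∧ Disjoint (Tf u) J)
    have h5' : ((X.filter fun u => ¬ ∃ K ∈ insert J Js, Te u ⊆ K ∧ Disjoint (Tf u) K).card : ℝ) ≤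
        (Y.filter fun u => ¬ (Te u ⊆ J ∧ Disjoint (Tf u) J)).card := by exact_mod_cast h5
    have h6' : ((Y.filter fun u => Te u ⊆ J ∧ Disjoint (Tf u) J).card : ℝ) +
        (Y.filter fun u => ¬ (Te u ⊆ J ∧ Disjoint (Tf u) J)).card = Y.card := by exact_mod_cast h6
    have hJ' : (Y.card : ℝ) ≤ 4 ^ r * (Y.filter fun u => Te u ⊆ J ∧ Disjoint (Tf u) J).card := by
      exact_mod_cast hJ
    have h40 : (0:ℝ) < 4 ^ r := by positivity
    have h7 : (Y.card : ℝ) / 4 ^ r ≤ (Y.filter fun u => Te u ⊆ J ∧ Disjoint (Tf u) J).card := by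
      rw [div_le_iff₀ h40]
      linarith
    have h8 : (0:ℝ) ≤ 1 - 1 / 4 ^ r := by
      rw [sub_nonneg, div_le_one h40]
      exact one_le_pow₀ (by norm_num)
    calc _ ≤ (1 - 1 / 4 ^ r) * (Y.card : ℝ) := by
          rw [sub_mul, one_mul, one_div_mul_eq_div]
          linarith
      _ ≤ (1 - 1 / 4 ^ r) * ((1 - 1 / 4 ^ r) ^ lam * X.card) := mul_le_mul_of_nonneg_left hJ2 h8
      _ = _ := by ring


/-- Few functions have special values at given places. -/
theorem card_restrict {P I J : Type} [Fintype P] [Fintype I] [DecidableEq P]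
    [Fintype J] [DecidableEq J] (c : J → P) (hc : Function.Injective c) (B : (J → I) → Prop)
    [DecidablePred B] :
    (univ.filter fun ψ : P → I => B (fun j => ψ (c j))).card * Fintype.card I ^ Fintype.card J ≤
      (univ.filter B).card * Fintype.card I ^ Fintype.card P := by
  classical
  obtain ⟨Q, hQ⟩ : ∃ Q : Finset P, Q = (univ.image c)ᶜ := ⟨_, rfl⟩
  have hQc : Q.card + Fintype.card J = Fintype.card P := by
    rw [hQ, card_compl, card_image_of_injective _ hc, card_univ]
    have := Fintype.card_le_of_injective c hc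
    omega
  have h1 : (univ.filter fun ψ : P → I => B (fun j => ψ (c j))).card ≤
      ((univ.filter B) ×ˢ (univ : Finset ({p // p ∈ Q} → I))).card := by
    refine card_le_card_of_injOn (fun ψ => (fun j => ψ (c j), fun p => ψ p.1)) ?_ ?_
    · intro ψ hψ
      rw [mem_coe, mem_filter] at hψ
      rw [mem_coe, mem_product, mem_filter]
      exact ⟨⟨mem_univ _, hψ.2⟩, mem_univ _⟩
    · intro ψ _ ψ' _ h
      funext p
      by_cases hp : p ∈ Q
      · exact congrFun (Prod.ext_iff.1 h).2 ⟨p, hp⟩
      · rw [hQ, mem_compl, not_not] at hp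
        obtain ⟨j, -, rfl⟩ := mem_image.1 hp
        exact congrFun (Prod.ext_iff.1 h).1 j
  rw [card_product, card_univ, Fintype.card_fun, Fintype.card_coe] at h1
  calc _ ≤ (univ.filter B).card * Fintype.card I ^ Q.card * Fintype.card I ^ Fintype.card J :=
        Nat.mul_le_mul_right _ h1
    _ = _ := by rw [mul_assoc, ← pow_add, hQc]

section

variable {I : Type} [Fintype I] [DecidableEq I] [AddCommGroup I] {h q : ℕ}

/-- The graph: blocks of `2 h` vertices and `q` further vertices joined to everything. A vertex of a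
block has a side, a number and a place; the block is the place minus the shift `π` of the vertex. -/
def Hg (q : ℕ) (π : Bool × Fin h → I) (x y : Finset I) :
    SimpleGraph (((Bool × Fin h) × I) ⊕ Fin q) where
  Adj u v := match u, v with
    | Sum.inl u, Sum.inl v => u.2 - π u.1 = v.2 - π v.1 ∧ u.1 ≠ v.1 ∧
        (u.1.1 = false → v.1.1 = false → u.2 - π u.1 ∈ x) ∧
        (u.1.1 = true → v.1.1 = true → u.2 - π u.1 ∈ y)
    | Sum.inl _, Sum.inr _ => True
    | Sum.inr _, Sum.inl _ => True
    | Sum.inr a, Sum.inr b => a ≠ b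
  symm := ⟨by
    rintro (u | u) (v | v) h
    · exact ⟨h.1.symm, h.2.1.symm, fun h1 h2 => by rw [← h.1]; exact h.2.2.1 h2 h1,
        fun h1 h2 => by rw [← h.1]; exact h.2.2.2 h2 h1⟩
    · trivial
    · trivial
    · exact Ne.symm h⟩
  loopless := ⟨by
    rintro (u | u) h
    · exact h.2.1 rfl
    · exact h rfl⟩

omit [Fintype I] in
theorem has_clique (π : Bool × Fin h → I) {x y : Finset I} {i : I} (hx : i ∈ x) (hy : i ∈ y) :
    ¬ (Hg q π x y).CliqueFree (2 * h + q) := by
  classical
  intro hf
  obtain ⟨F, hF⟩ : ∃ F : (Bool × Fin h) ⊕ Fin q → ((Bool × Fin h) × I) ⊕ Fin q,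
    F = Sum.map (fun p => (p, i + π p)) id := ⟨_, rfl⟩
  have hinj : Function.Injective F := by
    rw [hF]
    apply Function.Injective.sumMap
    · intro p p' hpp
      exact (Prod.ext_iff.1 hpp).1
    · exact fun _ _ h => h
  refine hf (univ.image F) ⟨?_, ?_⟩
  · intro u hu v hv huv
    rw [mem_coe, mem_image] at hu hv
    obtain ⟨u', -, rfl⟩ := hu
    obtain ⟨v', -, rfl⟩ := hv
    have hne : u' ≠ v' := fun h => huv (by rw [h])
    rw [hF]
    rcases u' with u' | u' <;> rcases v' with v' | v'
    · refine ⟨?_, fun h => hne (by rw [show u' = v' from h]), fun _ _ => ?_, fun _ _ => ?_⟩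
      · show i + π u' - π u' = i + π v' - π v'
        rw [add_sub_cancel_right, add_sub_cancel_right]
      · show i + π u' - π u' ∈ x
        rwa [add_sub_cancel_right]
      · show i + π u' - π u' ∈ y
        rwa [add_sub_cancel_right]
    · trivial
    · trivial
    · exact fun h => hne (by rw [show u' = v' from h])
  · rw [card_image_of_injective _ hinj, card_univ, Fintype.card_sum, Fintype.card_prod,
      Fintype.card_bool, Fintype.card_fin, Fintype.card_fin]

omit [Fintype I] in
theorem no_clique (π : Bool × Fin h → I) {x y : Finset I} (hxy : Disjoint x y) :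
    (Hg q π x y).CliqueFree (h + q + 2) := by
  classical
  intro S hS
  have hcl := hS.isClique
  have hc := hS.card_eq
  rw [← card_toLeft_add_card_toRight] at hc
  have h1 : S.toRight.card ≤ q := (card_le_univ _).trans (by rw [Fintype.card_fin])
  have h2 : h + 2 ≤ S.toLeft.card := by omega
  have hadj : ∀ u ∈ S.toLeft, ∀ v ∈ S.toLeft, u ≠ v → u.2 - π u.1 = v.2 - π v.1 ∧ u.1 ≠ v.1 ∧
        (u.1.1 = false → v.1.1 = false → u.2 - π u.1 ∈ x) ∧
        (u.1.1 = true → v.1.1 = true → u.2 - π u.1 ∈ y) := by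
    intro u hu v hv huv
    rw [mem_toLeft] at hu hv
    exact hcl (mem_coe.2 hu) (mem_coe.2 hv) (fun h => huv (Sum.inl.inj h))
  obtain ⟨u₀, hu₀⟩ : S.toLeft.Nonempty := card_pos.1 (by omega)
  obtain ⟨i, hi⟩ : ∃ i, i = u₀.2 - π u₀.1 := ⟨_, rfl⟩
  have hall : ∀ u ∈ S.toLeft, u.2 - π u.1 = i := by
    intro u hu
    by_cases hne : u = u₀
    · rw [hne, hi]
    · rw [hi]
      exact (hadj u hu u₀ hu₀ hne).1
  -- few vertices on one side
  have hside : ∀ σ : Bool, (∀ u ∈ S.toLeft, ∀ v ∈ S.toLeft, u.1.1 = σ → v.1.1 = σ → u = v) →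
      False := by
    intro σ hσ
    have h3 := card_filter_add_card_filter_not (s := S.toLeft) (fun u => u.1.1 = σ)
    have h4 : (S.toLeft.filter fun u => u.1.1 = σ).card ≤ 1 := by
      rw [card_le_one]
      intro u hu v hv
      rw [mem_filter] at hu hv
      exact hσ u hu.1 v hv.1 hu.2 hv.2
    have h5 : (S.toLeft.filter fun u => ¬ u.1.1 = σ).card ≤ h := by
      have h6 : (S.toLeft.filter fun u => ¬ u.1.1 = σ).card ≤ (univ : Finset (Fin h)).card := by
        refine card_le_card_of_injOn (fun u => u.1.2) (fun _ _ => mem_coe.2 (mem_univ _)) ?_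
        intro u hu v hv huv
        rw [mem_coe, mem_filter] at hu hv
        by_contra hne
        refine (hadj u hu.1 v hv.1 hne).2.1 (Prod.ext ?_ huv)
        have e1 := hu.2
        have e2 := hv.2
        revert e1 e2
        cases u.1.1 <;> cases v.1.1 <;> cases σ <;> simp
      rwa [card_univ, Fintype.card_fin] at h6
    omega
  by_cases hix : i ∈ x
  · have hiy : i ∉ y := Finset.disjoint_left.1 hxy hix
    refine hside true fun u hu v hv h3 h4 => ?_
    by_contra hne
    have h5 := (hadj u hu v hv hne).2.2.2 h3 h4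
    rw [hall u hu] at h5
    exact hiy h5
  · refine hside false fun u hu v hv h3 h4 => ?_
    by_contra hne
    have h5 := (hadj u hu v hv hne).2.2.1 h3 h4
    rw [hall u hu] at h5
    exact hix h5

variable {n : ℕ} (φ : (((Bool × Fin h) × I) ⊕ Fin q) ↪ Fin n)

/-- The graph on the vertices `0, …, n - 1`. -/
def Gr (π : Bool × Fin h → I) (x y : Finset I) : SimpleGraph (Fin n) := (Hg q π x y).map φ

omit [Fintype I] in
theorem gr_clique [Nonempty (((Bool × Fin h) × I) ⊕ Fin q)] (π : Bool × Fin h → I)
    {x y : Finset I} {i : I} (hx : i ∈ x) (hy : i ∈ y) :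
    ¬ (Gr φ π x y).CliqueFree (2 * h + q) := by
  unfold Gr
  rw [SimpleGraph.cliqueFree_map_iff]
  exact has_clique π hx hy

omit [Fintype I] in
theorem gr_free [Nonempty (((Bool × Fin h) × I) ⊕ Fin q)] (π : Bool × Fin h → I)
    {x y : Finset I} (hxy : Disjoint x y) : (Gr φ π x y).CliqueFree (h + q + 2) := by
  unfold Gr
  rw [SimpleGraph.cliqueFree_map_iff]
  exact no_clique π hxy

/-- The pair of the vertices `j` and `j'` of the side `σ` at the places given by `ψ`. -/
def vr (ψ : Bool × Fin h → I) (σ : Bool) (j j' : Fin h) : Sym2 (Fin n) :=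
  s(φ (Sum.inl ((σ, j), ψ (σ, j))), φ (Sum.inl ((σ, j'), ψ (σ, j'))))

/-- The places of the vertices of the block `i`. -/
def plc (π : Bool × Fin h → I) (i : I) : Bool × Fin h → I := fun p => i + π p

omit [Fintype I] [DecidableEq I] in
theorem adj_mono (π : Bool × Fin h → I) {x y x' y' : Finset I} {u v : Fin n}
    (hx : ∀ i j j', j ≠ j' → s(u, v) = vr φ (plc π i) false j j' → i ∈ x → i ∈ x')
    (hy : ∀ i j j', j ≠ j' → s(u, v) = vr φ (plc π i) true j j' → i ∈ y → i ∈ y')
    (h : (Gr φ π x y).Adj u v) : (Gr φ π x' y').Adj u v := by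
  unfold Gr at h ⊢
  rw [SimpleGraph.map_adj] at h ⊢
  obtain ⟨u', v', h1, rfl, rfl⟩ := h
  refine ⟨u', v', ?_, rfl, rfl⟩
  rcases u' with ⟨⟨σ, j⟩, a⟩ | u' <;> rcases v' with ⟨⟨σ', j'⟩, b⟩ | v'
  · obtain ⟨h2, h3, h4, h5⟩ := h1
    simp only at h2 h3 h4 h5
    have ea : plc π (a - π (σ, j)) (σ, j) = a := sub_add_cancel _ _
    have eb : plc π (a - π (σ, j)) (σ', j') = b := by
      rw [h2]
      exact sub_add_cancel _ _
    refine ⟨h2, h3, fun h6 h7 => ?_, fun h6 h7 => ?_⟩
    · simp only at h6 h7
      subst h6 h7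
      refine hx _ j j' (fun h => h3 (by rw [h])) ?_ (h4 rfl rfl)
      unfold vr
      rw [ea, eb]
    · simp only at h6 h7
      subst h6 h7
      refine hy _ j j' (fun h => h3 (by rw [h])) ?_ (h5 rfl rfl)
      unfold vr
      rw [ea, eb]
  · trivial
  · trivial
  · exact h1

omit [Fintype I] [DecidableEq I] in
theorem bits_eq (π : Bool × Fin h → I) {x y x' y' : Finset I} {e : Sym2 (Fin n)}
    (hx : ∀ i j j', j ≠ j' → e = vr φ (plc π i) false j j' → (i ∈ x ↔ i ∈ x'))
    (hy : ∀ i j j', j ≠ j' → e = vr φ (plc π i) true j j' → (i ∈ y ↔ i ∈ y')) :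
    bits (Gr φ π x y) e = bits (Gr φ π x' y') e := by
  classical
  unfold bits
  congr 1
  apply propext
  induction e using Sym2.ind with
  | _ u v =>
    rw [SimpleGraph.mem_edgeSet, SimpleGraph.mem_edgeSet]
    constructor
    · exact adj_mono φ π (fun i j j' h1 h => (hx i j j' h1 h).1) (fun i j j' h1 h => (hy i j j' h1 h).1)
    · exact adj_mono φ π (fun i j j' h1 h => (hx i j j' h1 h).2) (fun i j j' h1 h => (hy i j j' h1 h).2)

omit [Fintype I] [DecidableEq I] [AddCommGroup I] in
theorem vr_ne (ψ ψ' : Bool × Fin h → I) (j j' l l' : Fin h) :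
    vr φ ψ false j j' ≠ vr φ ψ' true l l' := by
  intro h
  unfold vr at h
  rw [Sym2.eq_iff] at h
  rcases h with ⟨h1, -⟩ | ⟨h1, -⟩
  · have e1 := φ.injective h1
    simp at e1
  · have e1 := φ.injective h1
    simp at e1

/-- The pair as a function of the two places. -/
def vr2 (σ : Bool) (j j' : Fin h) (b : I × I) : Sym2 (Fin n) :=
  s(φ (Sum.inl ((σ, j), b.1)), φ (Sum.inl ((σ, j'), b.2)))

omit [Fintype I] [DecidableEq I] [AddCommGroup I] in
theorem vr2_inj (σ : Bool) {j j' : Fin h} (hj : j ≠ j') :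
    Function.Injective (vr2 φ σ j j') := by
  intro b b' hb
  unfold vr2 at hb
  rw [Sym2.eq_iff] at hb
  rcases hb with ⟨h1, h2⟩ | ⟨h1, h2⟩
  · have e1 := φ.injective h1
    have e2 := φ.injective h2
    simp only [Sum.inl.injEq, Prod.mk.injEq, true_and] at e1 e2
    exact Prod.ext e1 e2
  · have e1 := φ.injective h1
    simp only [Sum.inl.injEq, Prod.mk.injEq, true_and] at e1
    exact absurd e1.1 hj

omit [DecidableEq I] [AddCommGroup I] in
/-- Counting places: two coordinates. -/
theorem count_two (σ : Bool) {j j' : Fin h} (hj : j ≠ j') (B : Sym2 (Fin n) → Prop)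
    [DecidablePred B] :
    (univ.filter fun ψ : Bool × Fin h → I => B (vr φ ψ σ j j')).card * Fintype.card I ^ 2 ≤
      (univ.filter fun b : I × I => B (vr2 φ σ j j' b)).card * Fintype.card I ^ (2 * h) := by
  classical
  have h1 := card_restrict (I := I) (fun b : Bool => ((σ, if b then j' else j) : Bool × Fin h))
    (by
      intro b b' hb
      have := (Prod.ext_iff.1 hb).2
      revert this
      cases b <;> cases b' <;> simp [hj, Ne.symm hj])
    (fun b : Bool → I => B (vr2 φ σ j j' (b false, b true)))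
  rw [Fintype.card_bool, Fintype.card_prod, Fintype.card_bool, Fintype.card_fin] at h1
  refine le_trans (le_of_eq ?_) (h1.trans (Nat.mul_le_mul_right _ ?_))
  · congr 2
  · refine card_le_card_of_injOn (fun b => (b false, b true)) ?_ ?_
    · intro b hb
      rw [mem_coe, mem_filter] at hb ⊢
      exact ⟨mem_univ _, hb.2⟩
    · intro b _ b' _ hbb
      funext c
      cases c
      · exact (Prod.ext_iff.1 hbb).1
      · exact (Prod.ext_iff.1 hbb).2

omit [DecidableEq I] [AddCommGroup I] in
/-- Counting places: four coordinates. -/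
theorem count_four {j j' l l' : Fin h} (hj : j ≠ j') (hl : l ≠ l')
    (B : Sym2 (Fin n) → Sym2 (Fin n) → Prop) [∀ a b, Decidable (B a b)] :
    (univ.filter fun ψ : Bool × Fin h → I =>
      B (vr φ ψ false j j') (vr φ ψ true l l')).card * Fintype.card I ^ 4 ≤
      (univ.filter fun b : (I × I) × (I × I) =>
        B (vr2 φ false j j' b.1) (vr2 φ true l l' b.2)).card * Fintype.card I ^ (2 * h) := by
  classical
  have h1 := card_restrict (I := I) (fun b : Bool × Bool =>
      ((b.1, if b.2 then (if b.1 then l' else j') else (if b.1 then l else j)) : Bool × Fin h))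
    (by
      rintro ⟨b1, b2⟩ ⟨c1, c2⟩ hb
      have e1 := (Prod.ext_iff.1 hb).1
      have e2 := (Prod.ext_iff.1 hb).2
      simp only at e1 e2
      subst e1
      revert e2
      cases b1 <;> cases b2 <;> cases c2 <;> simp [hj, Ne.symm hj, hl, Ne.symm hl])
    (fun b : Bool × Bool → I => B (vr2 φ false j j' (b (false, false), b (false, true)))
      (vr2 φ true l l' (b (true, false), b (true, true))))
  rw [Fintype.card_prod, Fintype.card_prod, Fintype.card_bool, Fintype.card_fin] at h1
  refine le_trans (le_of_eq ?_) (h1.trans (Nat.mul_le_mul_right _ ?_))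
  · congr 2
  · refine card_le_card_of_injOn (fun b => ((b (false, false), b (false, true)),
      (b (true, false), b (true, true)))) ?_ ?_
    · intro b hb
      rw [mem_coe, mem_filter] at hb ⊢
      exact ⟨mem_univ _, hb.2⟩
    · intro b _ b' _ hbb
      simp only [Prod.mk.injEq] at hbb
      funext c
      obtain ⟨c1, c2⟩ := c
      cases c1 <;> cases c2
      · exact hbb.1.1
      · exact hbb.1.2
      · exact hbb.2.1
      · exact hbb.2.2

end

end Run7.h156.CR
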