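import Pool.Agent.Run7.h156.CR.Place

/-!
# Almost all blocks of almost all placements are separated by few sets of parts
-/

set_option autoImplicit false

open Finset

namespace Run7.h156.CR

variable {I : Type} [Fintype I] [DecidableEq I] [AddCommGroup I] {h q n : ℕ}
  (φ : (((Bool × Fin h) × I) ⊕ Fin q) ↪ Fin n)

/-- The parts in which a pair of the side `σ` is read. -/
def TT {s : ℕ} (T : Sym2 (Fin n) → Finset (Fin s)) (σ : Bool) (ψ : Bool × Fin h → I) :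
    Finset (Fin s) :=
  (univ.filter fun p : Fin h × Fin h => p.1 ≠ p.2).biUnion fun p => T (vr φ ψ σ p.1 p.2)

omit [Fintype I] [DecidableEq I] [AddCommGroup I] in
theorem mem_TT {s : ℕ} (T : Sym2 (Fin n) → Finset (Fin s)) (σ : Bool) (ψ : Bool × Fin h → I)
    (a : Fin s) : a ∈ TT φ T σ ψ ↔ ∃ j j', j ≠ j' ∧ a ∈ T (vr φ ψ σ j j') := by
  unfold TT
  rw [mem_biUnion]
  constructor
  · rintro ⟨⟨j, j'⟩, h1, h2⟩
    exact ⟨j, j', (mem_filter.1 h1).2, h2⟩
  · rintro ⟨j, j', h1, h2⟩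
    exact ⟨(j, j'), mem_filter.2 ⟨mem_univ _, h1⟩, h2⟩

omit [Fintype I] [DecidableEq I] [AddCommGroup I] in
theorem card_TT {s r' : ℕ} (T : Sym2 (Fin n) → Finset (Fin s)) (σ : Bool) (ψ : Bool × Fin h → I)
    (hT : ∀ j j', j ≠ j' → (T (vr φ ψ σ j j')).card ≤ r') : (TT φ T σ ψ).card ≤ h ^ 2 * r' := by
  unfold TT
  refine (card_biUnion_le_card_mul _ _ r' fun p hp => hT _ _ (mem_filter.1 hp).2).trans ?_
  refine Nat.mul_le_mul_right _ ((card_filter_le _ _).trans ?_)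
  rw [card_univ, Fintype.card_prod, Fintype.card_fin, sq]

/-- **The placements.** -/
theorem placements {s : ℕ} (T : Sym2 (Fin n) → Finset (Fin s)) (D : Finset (Sym2 (Fin n)))
    (R w r' lam : ℕ) (hR : ∀ Y : Finset (Sym2 (Fin n)), ∑ i ∈ Y, (T i).card ≤ R)
    (hw : ∀ (Y : Finset (Sym2 (Fin n))) (j : Fin s), (Y.filter fun i => j ∈ T i).card ≤ w) :
    ∃ (Gs : Finset (Finset (Fin s))) (good : (Bool × Fin h → I) → Finset I)
      (grp : (Bool × Fin h → I) → I → Finset (Fin s)), Gs.card ≤ lam ∧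
      (∀ π, ∀ i ∈ good π, grp π i ∈ Gs ∧ ∀ j j', j ≠ j' →
        (vr φ (plc π i) false j j' ∉ D ∧ T (vr φ (plc π i) false j j') ⊆ grp π i) ∧
        (vr φ (plc π i) true j j' ∉ D ∧ Disjoint (T (vr φ (plc π i) true j j')) (grp π i))) ∧
      (∑ π, ((good π)ᶜ.card : ℝ)) * (Fintype.card I : ℝ) ^ 3 ≤
        (Fintype.card I : ℝ) ^ (2 * h) * (2 * h ^ 2 * D.card * (Fintype.card I : ℝ) ^ 2 +
        2 * h ^ 2 * (R / (r' + 1 : ℝ)) * (Fintype.card I : ℝ) ^ 2 + h ^ 4 * (R * w) +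
        (1 - 1 / 4 ^ (h ^ 2 * r')) ^ lam * (Fintype.card I : ℝ) ^ 4) := by
  classical
  obtain ⟨m, hm⟩ : ∃ m, m = Fintype.card I := ⟨_, rfl⟩
  obtain ⟨X, hX⟩ : ∃ X : Finset (Bool × Fin h → I), X = univ.filter fun ψ =>
    (∀ σ j j', j ≠ j' → (T (vr φ ψ σ j j')).card ≤ r') ∧
    (∀ j j' l l', j ≠ j' → l ≠ l' → Disjoint (T (vr φ ψ false j j')) (T (vr φ ψ true l l'))) :=
    ⟨_, rfl⟩
  obtain ⟨Gs, hG1, hG2⟩ := sep_family X (TT φ T false) (TT φ T true) (h ^ 2 * r')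
    (fun u hu => by rw [hX] at hu; exact card_TT φ T false u ((mem_filter.1 hu).2.1 false))
    (fun u hu => by rw [hX] at hu; exact card_TT φ T true u ((mem_filter.1 hu).2.1 true))
    (fun u hu => by
      rw [hX] at hu
      rw [Finset.disjoint_left]
      intro a ha hb
      obtain ⟨j, j', hj, ha'⟩ := (mem_TT φ T false u a).1 ha
      obtain ⟨l, l', hl, hb'⟩ := (mem_TT φ T true u a).1 hb
      exact Finset.disjoint_left.1 ((mem_filter.1 hu).2.2 j j' l l' hj hl) ha' hb') lam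
  obtain ⟨ok, hok⟩ : ∃ ok : (Bool × Fin h → I) → Prop, ∀ ψ, ok ψ ↔
    (∀ σ j j', j ≠ j' → vr φ ψ σ j j' ∉ D) ∧
      ∃ J ∈ Gs, TT φ T false ψ ⊆ J ∧ Disjoint (TT φ T true ψ) J := ⟨_, fun _ => Iff.rfl⟩
  obtain ⟨good, hgood⟩ : ∃ good : (Bool × Fin h → I) → Finset I, ∀ π, good π = univ.filter fun i =>
    ok (plc π i) := ⟨_, fun _ => rfl⟩
  have hgm : ∀ π i, i ∈ good π ↔ ok (plc π i) := by
    intro π i
    rw [hgood, mem_filter]
    simp only [mem_univ, true_and]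
  obtain ⟨grp, hgrp⟩ : ∃ grp : (Bool × Fin h → I) → I → Finset (Fin s), ∀ π i, grp π i =
    if hh : ∃ J ∈ Gs, TT φ T false (plc π i) ⊆ J ∧ Disjoint (TT φ T true (plc π i)) J
      then hh.choose else ∅ := ⟨_, fun _ _ => rfl⟩
  refine ⟨Gs, good, grp, hG1, ?_, ?_⟩
  · intro π i hi
    rw [hgm, hok] at hi
    obtain ⟨h1, h3⟩ := hi
    have h4 := h3.choose_spec
    rw [hgrp, dif_pos h3]
    refine ⟨h4.1, fun j j' hj => ⟨⟨h1 _ _ _ hj, fun a ha => ?_⟩, ⟨h1 _ _ _ hj, ?_⟩⟩⟩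
    · exact h4.2.1 ((mem_TT φ T false _ a).2 ⟨j, j', hj, ha⟩)
    · rw [Finset.disjoint_left]
      intro a ha hb
      exact Finset.disjoint_left.1 h4.2.2 ((mem_TT φ T true _ a).2 ⟨j, j', hj, ha⟩) hb
  -- the bad places
  obtain ⟨bad, hbad⟩ : ∃ bad : Finset (Bool × Fin h → I), bad = univ.filter fun ψ => ¬ ok ψ :=
    ⟨_, rfl⟩
  have h1 : ∑ π, (good π)ᶜ.card ≤ bad.card * m := by
    rw [← card_sigma, hm, ← card_univ (α := I), ← card_product]
    refine card_le_card_of_injOn (fun p => (plc p.1 p.2, p.2)) ?_ ?_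
    · rintro ⟨π, i⟩ hp
      rw [mem_coe, mem_sigma, mem_compl, hgm] at hp
      rw [hbad, mem_coe, mem_product, mem_filter]
      exact ⟨⟨mem_univ _, hp.2⟩, mem_univ _⟩
    · rintro ⟨π, i⟩ _ ⟨π', i'⟩ _ hp
      simp only [Prod.mk.injEq] at hp
      obtain ⟨h2, rfl⟩ := hp
      have : π = π' := by
        funext p
        exact add_left_cancel (congrFun h2 p)
      rw [this]
  have hcard3 : (univ.filter fun p : Bool × Fin h × Fin h => p.2.1 ≠ p.2.2).card ≤ 2 * h ^ 2 := by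
    refine (card_filter_le _ _).trans ?_
    rw [card_univ, Fintype.card_prod, Fintype.card_prod, Fintype.card_bool, Fintype.card_fin, sq]
  have htwo : ∀ (B : Sym2 (Fin n) → Prop) [DecidablePred B] (Z : ℕ), (∀ σ j j', j ≠ j' →
      (univ.filter fun b : I × I => B (vr2 φ σ j j' b)).card ≤ Z) →
      (univ.filter fun ψ : Bool × Fin h → I => ∃ σ j j', j ≠ j' ∧ B (vr φ ψ σ j j')).card * m ^ 2 ≤
        2 * h ^ 2 * (Z * m ^ (2 * h)) := by
    intro B _ Z hZ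
    have h2 : (univ.filter fun ψ : Bool × Fin h → I => ∃ σ j j', j ≠ j' ∧ B (vr φ ψ σ j j')) ⊆
        (univ.filter fun p : Bool × Fin h × Fin h => p.2.1 ≠ p.2.2).biUnion fun p =>
          univ.filter fun ψ : Bool × Fin h → I => B (vr φ ψ p.1 p.2.1 p.2.2) := by
      intro ψ hψ
      obtain ⟨σ, j, j', hj, hB⟩ := (mem_filter.1 hψ).2
      rw [mem_biUnion]
      exact ⟨(σ, j, j'), mem_filter.2 ⟨mem_univ _, hj⟩, mem_filter.2 ⟨mem_univ _, hB⟩⟩
    calc _ ≤ (∑ p ∈ univ.filter (fun p : Bool × Fin h × Fin h => p.2.1 ≠ p.2.2),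
          (univ.filter fun ψ : Bool × Fin h → I => B (vr φ ψ p.1 p.2.1 p.2.2)).card) * m ^ 2 :=
          Nat.mul_le_mul_right _ ((card_le_card h2).trans card_biUnion_le)
      _ = ∑ p ∈ univ.filter (fun p : Bool × Fin h × Fin h => p.2.1 ≠ p.2.2),
          (univ.filter fun ψ : Bool × Fin h → I => B (vr φ ψ p.1 p.2.1 p.2.2)).card * m ^ 2 := by
          rw [sum_mul]
      _ ≤ ∑ _p ∈ univ.filter (fun p : Bool × Fin h × Fin h => p.2.1 ≠ p.2.2), Z * m ^ (2 * h) := by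
          refine sum_le_sum fun p hp => ?_
          have h3 := (mem_filter.1 hp).2
          rw [hm]
          exact (count_two φ p.1 h3 B).trans (Nat.mul_le_mul_right _ (hZ _ _ _ h3))
      _ = (univ.filter fun p : Bool × Fin h × Fin h => p.2.1 ≠ p.2.2).card * (Z * m ^ (2 * h)) := by
          rw [sum_const, smul_eq_mul]
      _ ≤ _ := Nat.mul_le_mul_right _ hcard3
  -- the three kinds
  obtain ⟨N1, hN1⟩ : ∃ N1, N1 = (univ.filter fun ψ : Bool × Fin h → I =>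
    ∃ σ j j', j ≠ j' ∧ vr φ ψ σ j j' ∈ D).card := ⟨_, rfl⟩
  obtain ⟨N2, hN2⟩ : ∃ N2, N2 = (univ.filter fun ψ : Bool × Fin h → I =>
    ∃ σ j j', j ≠ j' ∧ r' < (T (vr φ ψ σ j j')).card).card := ⟨_, rfl⟩
  obtain ⟨N3, hN3⟩ : ∃ N3, N3 = (univ.filter fun ψ : Bool × Fin h → I => ∃ j j' l l', j ≠ j' ∧
    l ≠ l' ∧ ¬ Disjoint (T (vr φ ψ false j j')) (T (vr φ ψ true l l'))).card := ⟨_, rfl⟩
  obtain ⟨N4, hN4⟩ : ∃ N4, N4 = (X.filter fun u =>
    ¬ ∃ J ∈ Gs, TT φ T false u ⊆ J ∧ Disjoint (TT φ T true u) J).card := ⟨_, rfl⟩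
  have b1 : N1 * m ^ 2 ≤ 2 * h ^ 2 * (D.card * m ^ (2 * h)) := by
    rw [hN1]
    refine (le_of_eq (by congr!)).trans (htwo (fun e => e ∈ D) D.card fun σ j j' hj => ?_)
    exact card_le_card_of_injOn (vr2 φ σ j j') (fun u hu => by
      rw [mem_coe, mem_filter] at hu; exact hu.2) (fun u _ v _ h => vr2_inj φ σ hj h)
  have b2 : N2 * m ^ 2 ≤ 2 * h ^ 2 * (R / (r' + 1) * m ^ (2 * h)) := by
    rw [hN2]
    refine (le_of_eq (by congr!)).trans
      (htwo (fun e => r' < (T e).card) (R / (r' + 1)) fun σ j j' hj => ?_)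
    rw [Nat.le_div_iff_mul_le (Nat.succ_pos _)]
    have h2 := hR ((univ.filter fun b : I × I => r' < (T (vr2 φ σ j j' b)).card).image (vr2 φ σ j j'))
    rw [sum_image (fun u _ v _ h => vr2_inj φ σ hj h)] at h2
    refine le_trans ?_ h2
    rw [← smul_eq_mul, ← sum_const]
    exact sum_le_sum fun u hu => Nat.succ_le_of_lt (mem_filter.1 hu).2
  have b3 : N3 * m ^ 4 ≤ h ^ 4 * (R * w * m ^ (2 * h)) := by
    obtain ⟨K, hK⟩ : ∃ K : Finset ((Fin h × Fin h) × (Fin h × Fin h)), K = univ.filter fun p =>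
      p.1.1 ≠ p.1.2 ∧ p.2.1 ≠ p.2.2 := ⟨_, rfl⟩
    have hKc : K.card ≤ h ^ 4 := by
      rw [hK]
      refine (card_filter_le _ _).trans (le_of_eq ?_)
      rw [card_univ]
      simp only [Fintype.card_prod, Fintype.card_fin]
      ring
    have h2 : (univ.filter fun ψ : Bool × Fin h → I => ∃ j j' l l', j ≠ j' ∧ l ≠ l' ∧
        ¬ Disjoint (T (vr φ ψ false j j')) (T (vr φ ψ true l l'))) ⊆ K.biUnion fun p =>
        univ.filter fun ψ : Bool × Fin h → I =>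
          ¬ Disjoint (T (vr φ ψ false p.1.1 p.1.2)) (T (vr φ ψ true p.2.1 p.2.2)) := by
      intro ψ hψ
      obtain ⟨j, j', l, l', hj, hl, hB⟩ := (mem_filter.1 hψ).2
      rw [mem_biUnion]
      exact ⟨((j, j'), (l, l')), by rw [hK]; exact mem_filter.2 ⟨mem_univ _, hj, hl⟩,
        mem_filter.2 ⟨mem_univ _, hB⟩⟩
    have h3 : ∀ p ∈ K, (univ.filter fun ψ : Bool × Fin h → I =>
          ¬ Disjoint (T (vr φ ψ false p.1.1 p.1.2)) (T (vr φ ψ true p.2.1 p.2.2))).card * m ^ 4 ≤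
          R * w * m ^ (2 * h) := by
      intro p hp
      rw [hK] at hp
      obtain ⟨-, hj, hl⟩ := mem_filter.1 hp
      rw [hm]
      refine (count_four φ hj hl (fun a b => ¬ Disjoint (T a) (T b))).trans
        (Nat.mul_le_mul_right _ ?_)
      have h4 : (univ.filter fun b : (I × I) × (I × I) => ¬ Disjoint
          (T (vr2 φ false p.1.1 p.1.2 b.1)) (T (vr2 φ true p.2.1 p.2.2 b.2))) ⊆
          univ.biUnion fun a : I × I => (T (vr2 φ false p.1.1 p.1.2 a)).biUnion fun j =>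
            ({a} : Finset (I × I)) ×ˢ
            (univ.filter fun b : I × I => j ∈ T (vr2 φ true p.2.1 p.2.2 b)) := by
        intro u hu
        rw [mem_filter, Finset.not_disjoint_iff] at hu
        obtain ⟨-, j, hj1, hj2⟩ := hu
        rw [mem_biUnion]
        refine ⟨u.1, mem_univ _, ?_⟩
        rw [mem_biUnion]
        refine ⟨j, hj1, ?_⟩
        rw [mem_product]
        exact ⟨mem_singleton_self _, mem_filter.2 ⟨mem_univ _, hj2⟩⟩
      refine (card_le_card h4).trans (card_biUnion_le.trans ?_)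
      calc _ ≤ ∑ a : I × I, (T (vr2 φ false p.1.1 p.1.2 a)).card * w := by
            refine sum_le_sum fun a _ => card_biUnion_le_card_mul _ _ w fun j _ => ?_
            rw [card_product, card_singleton, one_mul]
            refine le_trans ?_ (hw (univ.image (vr2 φ true p.2.1 p.2.2)) j)
            refine card_le_card_of_injOn (vr2 φ true p.2.1 p.2.2) (fun b hb => ?_)
              (fun b _ c _ h => vr2_inj φ true hl h)
            rw [mem_coe, mem_filter] at hb ⊢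
            exact ⟨mem_image.2 ⟨b, mem_univ _, rfl⟩, hb.2⟩
        _ = (∑ a : I × I, (T (vr2 φ false p.1.1 p.1.2 a)).card) * w := by rw [sum_mul]
        _ ≤ _ := by
            refine Nat.mul_le_mul_right _ ?_
            have h5 := hR (univ.image (vr2 φ false p.1.1 p.1.2))
            rwa [sum_image (fun u _ v _ h => vr2_inj φ false hj h)] at h5
    rw [hN3]
    calc _ ≤ (∑ p ∈ K, (univ.filter fun ψ : Bool × Fin h → I =>
          ¬ Disjoint (T (vr φ ψ false p.1.1 p.1.2)) (T (vr φ ψ true p.2.1 p.2.2))).card) * m ^ 4 :=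
          Nat.mul_le_mul_right _ ((card_le_card h2).trans card_biUnion_le)
      _ = ∑ p ∈ K, (univ.filter fun ψ : Bool × Fin h → I =>
          ¬ Disjoint (T (vr φ ψ false p.1.1 p.1.2)) (T (vr φ ψ true p.2.1 p.2.2))).card * m ^ 4 := by
          rw [sum_mul]
      _ ≤ ∑ _p ∈ K, R * w * m ^ (2 * h) := sum_le_sum h3
      _ = K.card * (R * w * m ^ (2 * h)) := by rw [sum_const, smul_eq_mul]
      _ ≤ _ := Nat.mul_le_mul_right _ hKc
  have hq0 : (0:ℝ) ≤ (1 - 1 / 4 ^ (h ^ 2 * r')) ^ lam := by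
    apply pow_nonneg
    rw [sub_nonneg, div_le_one (by positivity)]
    exact one_le_pow₀ (by norm_num)
  have b4 : (N4 : ℝ) ≤ (1 - 1 / 4 ^ (h ^ 2 * r')) ^ lam * (m : ℝ) ^ (2 * h) := by
    have h6 : (X.card : ℝ) ≤ (m : ℝ) ^ (2 * h) := by
      have : X.card ≤ Fintype.card (Bool × Fin h → I) := card_le_univ _
      rw [Fintype.card_fun, Fintype.card_prod, Fintype.card_bool, Fintype.card_fin, ← hm] at this
      exact_mod_cast this
    rw [hN4]
    exact hG2.trans (mul_le_mul_of_nonneg_left h6 hq0)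
  have hcov : bad.card ≤ N1 + N2 + (N3 + N4) := by
    have h2 : bad ⊆ ((univ.filter fun ψ : Bool × Fin h → I =>
        ∃ σ j j', j ≠ j' ∧ vr φ ψ σ j j' ∈ D) ∪ (univ.filter fun ψ : Bool × Fin h → I =>
        ∃ σ j j', j ≠ j' ∧ r' < (T (vr φ ψ σ j j')).card)) ∪
        ((univ.filter fun ψ : Bool × Fin h → I => ∃ j j' l l', j ≠ j' ∧
        l ≠ l' ∧ ¬ Disjoint (T (vr φ ψ false j j')) (T (vr φ ψ true l l'))) ∪ (X.filter fun u =>
        ¬ ∃ J ∈ Gs, TT φ T false u ⊆ J ∧ Disjoint (TT φ T true u) J)) := by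
      intro ψ hψ
      rw [hbad, mem_filter, hok] at hψ
      have hψ2 := hψ.2
      simp only [mem_union, mem_filter, mem_univ, true_and, hX]
      by_cases c1 : ∃ σ j j', j ≠ j' ∧ vr φ ψ σ j j' ∈ D
      · exact Or.inl (Or.inl c1)
      by_cases c2 : ∃ σ j j', j ≠ j' ∧ r' < (T (vr φ ψ σ j j')).card
      · exact Or.inl (Or.inr c2)
      by_cases c3 : ∃ j j' l l', j ≠ j' ∧
        l ≠ l' ∧ ¬ Disjoint (T (vr φ ψ false j j')) (T (vr φ ψ true l l'))
      · exact Or.inr (Or.inl c3)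
      refine Or.inr (Or.inr ⟨⟨fun σ j j' hj => ?_, fun j j' l l' hj hl => ?_⟩, fun hJ => ?_⟩)
      · by_contra hc
        exact c2 ⟨σ, j, j', hj, not_le.1 hc⟩
      · by_contra hc
        exact c3 ⟨j, j', l, l', hj, hl, hc⟩
      · exact hψ2 ⟨fun σ j j' hj hD => c1 ⟨σ, j, j', hj, hD⟩, hJ⟩
    refine (card_le_card h2).trans ((card_union_le _ _).trans (Nat.add_le_add
      ((card_union_le _ _).trans (le_of_eq ?_)) ((card_union_le _ _).trans (le_of_eq ?_))))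
    · rw [hN1, hN2]
    · rw [hN3, hN4]
  -- the sum
  have c1 : (∑ π, ((good π)ᶜ.card : ℝ)) ≤ (N1 + N2 + (N3 + N4)) * m := by
    have := h1.trans (Nat.mul_le_mul_right m hcov)
    exact_mod_cast this
  have c2 : (N1 : ℝ) * m ^ 2 ≤ 2 * h ^ 2 * (D.card * m ^ (2 * h)) := by exact_mod_cast b1
  have c3 : (N2 : ℝ) * m ^ 2 ≤ 2 * h ^ 2 * (((R / (r' + 1) : ℕ) : ℝ) * m ^ (2 * h)) := by
    exact_mod_cast b2
  have c3' : ((R / (r' + 1) : ℕ) : ℝ) ≤ R / (r' + 1 : ℝ) := by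
    have := @Nat.cast_div_le ℝ _ _ _ R (r' + 1)
    push_cast at this
    exact this
  have c4 : (N3 : ℝ) * m ^ 4 ≤ h ^ 4 * (R * w * m ^ (2 * h)) := by exact_mod_cast b3
  have hm0 : (0:ℝ) ≤ m := Nat.cast_nonneg _
  rw [← hm]
  calc (∑ π, ((good π)ᶜ.card : ℝ)) * (m : ℝ) ^ 3 ≤ (N1 + N2 + (N3 + N4)) * m * (m : ℝ) ^ 3 :=
        mul_le_mul_of_nonneg_right c1 (by positivity)
    _ = (N1 * m ^ 2) * m ^ 2 + (N2 * m ^ 2) * m ^ 2 + N3 * m ^ 4 + N4 * m ^ 4 := by ring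
    _ ≤ (2 * h ^ 2 * (D.card * m ^ (2 * h))) * m ^ 2 +
        (2 * h ^ 2 * (R / (r' + 1 : ℝ) * m ^ (2 * h))) * m ^ 2 + h ^ 4 * (R * w * m ^ (2 * h)) +
        ((1 - 1 / 4 ^ (h ^ 2 * r')) ^ lam * (m : ℝ) ^ (2 * h)) * m ^ 4 := by
        refine add_le_add (add_le_add (add_le_add (mul_le_mul_of_nonneg_right c2 (by positivity))
          (mul_le_mul_of_nonneg_right (c3.trans ?_) (by positivity))) c4)
          (mul_le_mul_of_nonneg_right b4 (by positivity))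
        gcongr
    _ = _ := by ring

end Run7.h156.CR
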